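import Pool.Agent.R645.SQ.TwoGrp

/-! The abelian normal subgroup generated by the `w_u` and its finite quotients. -/

set_option autoImplicit false

namespace Pool.Agent.R645.SQ

universe u

variable {X : Type u} [AddCommGroup X]

/-- the elements of order at most two -/
def tor (X : Type u) [AddCommGroup X] : AddSubgroup X where
  carrier := {x | x + x = 0}
  add_mem' := by
    intro x y hx hy
    have hx' : x + x = 0 := hx
    have hy' : y + y = 0 := hy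
    show x + y + (x + y) = 0
    calc x + y + (x + y) = (x + x) + (y + y) := by abel
      _ = 0 := by rw [hx', hy', add_zero]
  zero_mem' := by show (0 : X) + 0 = 0; rw [add_zero]
  neg_mem' := by
    intro x hx
    have hx' : x + x = 0 := hx
    show -x + -x = 0
    rw [← neg_add, hx', neg_zero]

/-- the conjugates `a_0^k w_u a_0^{-k}` -/
def cc (k : ℤ) (u : X) : PiDelta X := a 0 ^ k * w u * (a 0 ^ k)⁻¹

theorem cc_add (k : ℤ) (u v : tor X) : cc k ((u + v : tor X) : X) = cc k (u : X) * cc k (v : X) := by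
  unfold cc
  have h : w ((u + v : tor X) : X) = w (u : X) * w (v : X) := by
    rw [AddSubgroup.coe_add]
    exact w_add _ _ u.2 v.2
  rw [h]
  group

theorem cc_zero (k : ℤ) : cc k (0 : X) = 1 := by
  unfold cc
  rw [w_zero]
  group

/-- the set of all `cc k u` with `2u = 0` -/
def ccs (X : Type u) [AddCommGroup X] : Set (PiDelta X) := {z | ∃ (k : ℤ) (u : tor X), z = cc k (u : X)}

theorem Q_cc (hX : TwoPrim X) (k : ℤ) (u : tor X) : Q (cc k (u : X)) :=
  (conj_col hX (a 0 ^ k) (w (u : X)) (Q_w _ u.2)).2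

theorem col_w (u : X) : col X (w u) = 1 := by
  unfold w
  rw [map_mul, map_inv, col_b, col_b]
  group

theorem col_cc (k : ℤ) (u : X) : col X (cc k u) = 1 := by
  unfold cc
  rw [map_mul, map_mul, map_inv, col_w]
  group

theorem ccs_comm (hX : TwoPrim X) : ∀ x ∈ ccs X, ∀ y ∈ ccs X, x * y = y * x := by
  rintro x ⟨k, u, rfl⟩ y ⟨l, v, rfl⟩
  exact commute_of_col hX _ _ (col_cc k (u : X)) (Q_cc hX l v)

/-- the subgroup generated by the `cc k u` -/
def W0 (X : Type u) [AddCommGroup X] : Subgroup (PiDelta X) := Subgroup.closure (ccs X)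

theorem cc_mem (k : ℤ) (u : tor X) : cc k (u : X) ∈ W0 X := Subgroup.subset_closure ⟨k, u, rfl⟩

theorem W0_comm (hX : TwoPrim X) (x y : PiDelta X) (hx : x ∈ W0 X) (hy : y ∈ W0 X) :
    x * y = y * x := by
  have h := Subgroup.isMulCommutative_closure (ccs_comm hX)
  have h2 := h.is_comm.comm ⟨x, hx⟩ ⟨y, hy⟩
  exact congrArg Subtype.val h2

theorem tau_exists (hX : TwoPrim X) : ∃ τ : (ℤ →₀ tor X) → PiDelta X, τ 0 = 1 ∧
    (∀ f g, τ (f + g) = τ f * τ g) ∧ (∀ k u, τ (Finsupp.single k u) = cc k (u : X)) ∧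
    (∀ y ∈ W0 X, ∃ f, τ f = y) := by
  letI : CommGroup (W0 X) := { (inferInstance : Group (W0 X)) with
    mul_comm := fun x y => Subtype.ext (W0_comm hX x.1 y.1 x.2 y.2) }
  let g : ℤ → (tor X →+ Additive (W0 X)) := fun k =>
    { toFun := fun u => Additive.ofMul ⟨cc k (u : X), cc_mem k u⟩
      map_zero' := by
        apply Additive.toMul.injective
        apply Subtype.ext
        exact cc_zero k
      map_add' := by
        intro u v
        apply Additive.toMul.injective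
        apply Subtype.ext
        exact cc_add k u v }
  let T : (ℤ →₀ tor X) →+ Additive (W0 X) := Finsupp.liftAddHom g
  refine ⟨fun f => ((Additive.toMul (T f) : W0 X) : PiDelta X), ?_, ?_, ?_, ?_⟩
  · show ((Additive.toMul (T 0) : W0 X) : PiDelta X) = 1
    rw [map_zero]
    rfl
  · intro f h
    show ((Additive.toMul (T (f + h)) : W0 X) : PiDelta X) = _
    rw [map_add]
    rfl
  · intro k u
    show ((Additive.toMul (T (Finsupp.single k u)) : W0 X) : PiDelta X) = _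
    rw [Finsupp.liftAddHom_apply_single]
    rfl
  · intro y hy
    have hgen : ∀ y ∈ W0 X, ∃ f, ((Additive.toMul (T f) : W0 X) : PiDelta X) = y := by
      intro y hy
      refine Subgroup.closure_induction (p := fun y _ => ∃ f, ((Additive.toMul (T f) : W0 X) : PiDelta X) = y)
        ?_ ?_ ?_ ?_ hy
      · rintro x ⟨k, u, rfl⟩
        refine ⟨Finsupp.single k u, ?_⟩
        rw [Finsupp.liftAddHom_apply_single]
        rfl
      · refine ⟨0, ?_⟩
        rw [map_zero]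
        rfl
      · rintro x y _ _ ⟨f, rfl⟩ ⟨h, rfl⟩
        refine ⟨f + h, ?_⟩
        rw [map_add]
        rfl
      · rintro x _ ⟨f, rfl⟩
        refine ⟨-f, ?_⟩
        rw [map_neg]
        rfl
    exact hgen y hy

theorem a0_conj_W0 (p : ℤ) (y : PiDelta X) (hy : y ∈ W0 X) : a 0 ^ p * y * (a 0 ^ p)⁻¹ ∈ W0 X := by
  refine Subgroup.closure_induction (p := fun y _ => a 0 ^ p * y * (a 0 ^ p)⁻¹ ∈ W0 X)
    ?_ ?_ ?_ ?_ hy
  · rintro x ⟨k, u, rfl⟩
    have e : a 0 ^ p * cc k (u : X) * (a 0 ^ p)⁻¹ = cc (p + k) (u : X) := by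
      unfold cc
      rw [zpow_add]
      group
    rw [e]
    exact cc_mem _ _
  · have e : a (0 : X) ^ p * 1 * (a 0 ^ p)⁻¹ = 1 := by group
    rw [e]
    exact Subgroup.one_mem _
  · intro x y _ _ hx hy
    have e : a (0 : X) ^ p * (x * y) * (a 0 ^ p)⁻¹ =
      (a 0 ^ p * x * (a 0 ^ p)⁻¹) * (a 0 ^ p * y * (a 0 ^ p)⁻¹) := by group
    rw [e]
    exact Subgroup.mul_mem _ hx hy
  · intro x _ hx
    have e : a (0 : X) ^ p * x⁻¹ * (a 0 ^ p)⁻¹ = (a 0 ^ p * x * (a 0 ^ p)⁻¹)⁻¹ := by group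
    rw [e]
    exact Subgroup.inv_mem _ hx

theorem b0_conj_W0 (hX : TwoPrim X) (y : PiDelta X) (hy : y ∈ W0 X) : b 0 * y * (b 0)⁻¹ ∈ W0 X := by
  refine Subgroup.closure_induction (p := fun y _ => b 0 * y * (b 0)⁻¹ ∈ W0 X)
    ?_ ?_ ?_ ?_ hy
  · rintro x ⟨k, u, rfl⟩
    obtain ⟨z1, h1, h2⟩ := Q_cc hX k u
    rw [h2, ← h1 0]
    have e : (a 0)⁻¹ * cc k (u : X) * a 0 = cc (-1 + k) (u : X) := by
      unfold cc
      rw [zpow_add]
      group
    rw [e]
    exact Subgroup.mul_mem _ (cc_mem _ _) (cc_mem _ _)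
  · have e : b (0 : X) * 1 * (b 0)⁻¹ = 1 := by group
    rw [e]
    exact Subgroup.one_mem _
  · intro x y _ _ hx hy
    have e : b (0 : X) * (x * y) * (b 0)⁻¹ = (b 0 * x * (b 0)⁻¹) * (b 0 * y * (b 0)⁻¹) := by group
    rw [e]
    exact Subgroup.mul_mem _ hx hy
  · intro x _ hx
    have e : b (0 : X) * x⁻¹ * (b 0)⁻¹ = (b 0 * x * (b 0)⁻¹)⁻¹ := by group
    rw [e]
    exact Subgroup.inv_mem _ hx

theorem b0_pow_conj_W0 (hX : TwoPrim X) (n : ℕ) (y : PiDelta X) (hy : y ∈ W0 X) :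
    b 0 ^ n * y * (b 0 ^ n)⁻¹ ∈ W0 X := by
  induction n with
  | zero => simpa using hy
  | succ n ih =>
    have e : b (0 : X) ^ (n + 1) * y * (b 0 ^ (n + 1))⁻¹ =
        b 0 * (b 0 ^ n * y * (b 0 ^ n)⁻¹) * (b 0)⁻¹ := by
      rw [pow_succ']
      group
    rw [e]
    exact b0_conj_W0 hX _ ih

/-- the normal closure of the `w_u`, `2u = 0` -/
def WW (X : Type u) [AddCommGroup X] : Subgroup (PiDelta X) :=
  Subgroup.normalClosure {z | ∃ u : tor X, z = w (u : X)}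

instance : (WW X).Normal := Subgroup.normalClosure_normal

theorem WW_conj (hX : TwoPrim X) (y : PiDelta X) (hy : y ∈ WW X) :
    ∃ n : ℕ, b 0 ^ n * y * (b 0 ^ n)⁻¹ ∈ W0 X := by
  have hmono : ∀ (n m : ℕ) (y : PiDelta X), b 0 ^ n * y * (b 0 ^ n)⁻¹ ∈ W0 X →
      b 0 ^ (m + n) * y * (b 0 ^ (m + n))⁻¹ ∈ W0 X := by
    intro n m y h
    have h2 := b0_pow_conj_W0 hX m _ h
    have e : b (0 : X) ^ (m + n) * y * (b 0 ^ (m + n))⁻¹ =
        b 0 ^ m * (b 0 ^ n * y * (b 0 ^ n)⁻¹) * (b 0 ^ m)⁻¹ := by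
      rw [pow_add]
      group
    rw [e]
    exact h2
  refine Subgroup.closure_induction
    (p := fun y _ => ∃ n : ℕ, b 0 ^ n * y * (b 0 ^ n)⁻¹ ∈ W0 X) ?_ ?_ ?_ ?_ hy
  · intro x hx
    rw [Group.mem_conjugatesOfSet_iff] at hx
    obtain ⟨z, ⟨u, rfl⟩, hz⟩ := hx
    rw [isConj_iff] at hz
    obtain ⟨g, rfl⟩ := hz
    obtain ⟨p, q, hpq⟩ := col_form g
    rw [(conj_col hX g _ (Q_w _ u.2)).1, hpq]
    have hc : Commute (a (0 : X)) (b 0) := a0_b0
    obtain ⟨N, hN⟩ := Int.eq_ofNat_of_zero_le (a := q + (q.natAbs : ℤ)) (by omega)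
    refine ⟨q.natAbs, ?_⟩
    have h1 : b (0 : X) ^ (q.natAbs) * (a 0 ^ p * b 0 ^ q) = a 0 ^ p * b 0 ^ N := by
      rw [← mul_assoc, ← (hc.zpow_left p |>.pow_right q.natAbs).eq, mul_assoc]
      congr 1
      rw [← zpow_natCast, ← zpow_natCast, ← zpow_add, ← hN, add_comm]
    have h2 := a0_conj_W0 p _ (b0_pow_conj_W0 hX N _ (by
      have := cc_mem (X := X) 0 u
      unfold cc at this
      rwa [zpow_zero, one_mul, inv_one, mul_one] at this))
    have e : b (0 : X) ^ q.natAbs * (a 0 ^ p * b 0 ^ q * w (u : X) * (a 0 ^ p * b 0 ^ q)⁻¹) *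
        (b 0 ^ q.natAbs)⁻¹ = (b 0 ^ q.natAbs * (a 0 ^ p * b 0 ^ q)) * w (u : X) *
        (b 0 ^ q.natAbs * (a 0 ^ p * b 0 ^ q))⁻¹ := by group
    rw [e, h1]
    have e2 : a (0 : X) ^ p * b 0 ^ N * w (u : X) * (a 0 ^ p * b 0 ^ N)⁻¹ =
      a 0 ^ p * (b 0 ^ N * w (u : X) * (b 0 ^ N)⁻¹) * (a 0 ^ p)⁻¹ := by group
    rw [e2]
    exact h2
  · refine ⟨0, ?_⟩
    have e : b (0 : X) ^ 0 * 1 * (b 0 ^ 0)⁻¹ = 1 := by group
    rw [e]
    exact Subgroup.one_mem _
  · rintro x y _ _ ⟨n, hn⟩ ⟨m, hm⟩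
    refine ⟨n + m, ?_⟩
    have h1 := hmono m n y hm
    have h2 := hmono n m x hn
    rw [add_comm m n] at h2
    have e : b (0 : X) ^ (n + m) * (x * y) * (b 0 ^ (n + m))⁻¹ =
      (b 0 ^ (n + m) * x * (b 0 ^ (n + m))⁻¹) * (b 0 ^ (n + m) * y * (b 0 ^ (n + m))⁻¹) := by group
    rw [e]
    exact Subgroup.mul_mem _ h2 h1
  · rintro x _ ⟨n, hn⟩
    refine ⟨n, ?_⟩
    have e : b (0 : X) ^ n * x⁻¹ * (b 0 ^ n)⁻¹ = (b 0 ^ n * x * (b 0 ^ n)⁻¹)⁻¹ := by group
    rw [e]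
    exact Subgroup.inv_mem _ hn

end Pool.Agent.R645.SQ
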