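import Mathlib

/-! The fundamental group of the square complex `Δ_X` attached to an abelian group `X`. -/

set_option autoImplicit false

namespace Pool.Agent.R645.SQ

universe u

/-- The relators `a_i b_j (a_{i-j})⁻¹ (b_{i+j})⁻¹` (the boundary paths of the squares).  The
vertical loop `a_i` is `FreeGroup.of (Sum.inl i)` and the horizontal loop `b_j` is
`FreeGroup.of (Sum.inr j)`. -/
def relators (X : Type u) [AddCommGroup X] : Set (FreeGroup (X ⊕ X)) :=
  {r | ∃ i j : X, r = FreeGroup.of (Sum.inl i) * FreeGroup.of (Sum.inr j) *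
    (FreeGroup.of (Sum.inl (i - j)))⁻¹ * (FreeGroup.of (Sum.inr (i + j)))⁻¹}

/-- The fundamental group
`π₁(Δ_X) = ⟨ a_i, b_j (i, j ∈ X) ∣ a_i b_j = b_{i+j} a_{i-j} (i, j ∈ X) ⟩`. -/
abbrev PiDelta (X : Type u) [AddCommGroup X] : Type u := PresentedGroup (relators X)

variable {X : Type u} [AddCommGroup X]

/-- The generator `a_i`. -/
def a (i : X) : PiDelta X := PresentedGroup.of (Sum.inl i)

/-- The generator `b_j`. -/
def b (j : X) : PiDelta X := PresentedGroup.of (Sum.inr j)

theorem rel (i j : X) : a i * b j = b (i + j) * a (i - j) := by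
  have h : (PresentedGroup.mk (relators X)) (FreeGroup.of (Sum.inl i) * FreeGroup.of (Sum.inr j) *
    (FreeGroup.of (Sum.inl (i - j)))⁻¹ * (FreeGroup.of (Sum.inr (i + j)))⁻¹) = 1 :=
    PresentedGroup.one_of_mem ⟨i, j, rfl⟩
  simp only [map_mul, map_inv] at h
  have h2 : a i * b j * (a (i - j))⁻¹ * (b (i + j))⁻¹ = 1 := h
  rw [mul_inv_eq_one, mul_inv_eq_iff_eq_mul] at h2
  exact h2

/-- The homomorphism out of `π₁(Δ_X)` determined by the images of the generators. -/
def lift {G : Type*} [Group G] (α β : X → G)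
    (h : ∀ i j, α i * β j = β (i + j) * α (i - j)) : PiDelta X →* G :=
  PresentedGroup.toGroup (f := Sum.elim α β) (by
    rintro r ⟨i, j, rfl⟩
    simp only [map_mul, map_inv, FreeGroup.lift_apply_of, Sum.elim_inl, Sum.elim_inr]
    rw [h i j]
    group)

@[simp] theorem lift_a {G : Type*} [Group G] (α β : X → G)
    (h : ∀ i j, α i * β j = β (i + j) * α (i - j)) (i : X) : lift α β h (a i) = α i := by
  unfold lift a
  rw [PresentedGroup.toGroup.of]
  rfl

@[simp] theorem lift_b {G : Type*} [Group G] (α β : X → G)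
    (h : ∀ i j, α i * β j = β (i + j) * α (i - j)) (i : X) : lift α β h (b i) = β i := by
  unfold lift b
  rw [PresentedGroup.toGroup.of]
  rfl

theorem hom_ext {G : Type*} [Group G] {f g : PiDelta X →* G}
    (ha : ∀ i, f (a i) = g (a i)) (hb : ∀ i, f (b i) = g (b i)) : f = g := by
  apply PresentedGroup.ext
  rintro (i | i)
  · exact ha i
  · exact hb i

theorem closure_gens : Subgroup.closure (Set.range (a (X := X)) ∪ Set.range (b (X := X))) = ⊤ := by
  rw [← PresentedGroup.closure_range_of (relators X)]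
  congr 1
  ext g
  constructor
  · rintro (⟨i, rfl⟩ | ⟨i, rfl⟩)
    · exact ⟨Sum.inl i, rfl⟩
    · exact ⟨Sum.inr i, rfl⟩
  · rintro ⟨i | i, rfl⟩
    · exact Or.inl ⟨i, rfl⟩
    · exact Or.inr ⟨i, rfl⟩

/-- Functoriality in `X`. -/
def mapX {Y : Type u} [AddCommGroup Y] (f : X →+ Y) : PiDelta X →* PiDelta Y :=
  lift (fun i => a (f i)) (fun j => b (f j)) (fun i j => by rw [map_add, map_sub]; exact rel _ _)

@[simp] theorem mapX_a {Y : Type u} [AddCommGroup Y] (f : X →+ Y) (i : X) :
    mapX f (a i) = a (f i) := lift_a _ _ _ _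

@[simp] theorem mapX_b {Y : Type u} [AddCommGroup Y] (f : X →+ Y) (i : X) :
    mapX f (b i) = b (f i) := lift_b _ _ _ _

end Pool.Agent.R645.SQ
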