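import Pool.Agent.R645.SQ.Rep

/-! Detecting elements of the abelian normal subgroup in finite quotients. -/

set_option autoImplicit false

namespace Pool.Agent.R645.SQ

universe u

theorem ring_exists {X : Type u} [AddCommGroup X] (e : ℕ) (he : 1 ≤ e) (φ : X →+ ZMod (2 ^ e))
    (f : ℤ →₀ tor X) (k : ℤ) (hk : φ (f k : X) ≠ 0) :
    ∃ (K : Type) (_ : CommRing K) (_ : Finite K) (ι : X →+ K) (A B : Kˣ)
      (_ : (A : K) * (1 - B) = 1 - 2 * B),
      (1 - (B : K)) * f.sum (fun k u => ((A ^ k : Kˣ) : K) * ι (u : X)) ≠ 0 := by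
  have hnt : Nontrivial (ZMod (2 ^ e)) := by
    have : Fact (1 < 2 ^ e) := ⟨Nat.one_lt_two_pow (by omega)⟩
    exact ZMod.nontrivial (2 ^ e)
  have hne : NeZero (2 ^ e) := ⟨by positivity⟩
  set M : ℕ := f.support.sup Int.natAbs with hM
  have hMle : ∀ j ∈ f.support, j.natAbs ≤ M := fun j hj => Finset.le_sup (f := Int.natAbs) hj
  set m : ℕ := 2 * M + 2 with hm
  set P : Polynomial (ZMod (2 ^ e)) := PP (ZMod (2 ^ e)) m with hP
  obtain ⟨hdeg, hmon⟩ := PP_deg (R := ZMod (2 ^ e)) m (by omega)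
  rw [← hP] at hdeg hmon
  have hfin : Finite (AdjoinRoot P) := by
    have := hmon.finite_adjoinRoot
    exact Module.finite_of_finite (ZMod (2 ^ e))
  have hu0 : IsUnit (AdjoinRoot.root P) := by
    have h1 : IsUnit (P.eval 0) := by
      rw [hP, PP_eval, zero_pow (by omega)]
      simp
    have h2 := root_sub_unit P 0 h1
    rwa [map_zero, sub_zero] at h2
  have hu1 : IsUnit (1 - AdjoinRoot.root P) := by
    have h1 : IsUnit (P.eval 1) := by
      rw [hP, PP_eval, one_pow]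
      have := odd_unit e 3 (by norm_num)
      convert this using 1
      push_cast
      ring
    have h2 := (root_sub_unit P 1 h1).neg
    rwa [map_one, neg_sub] at h2
  have hu2 : IsUnit (2 - AdjoinRoot.root P) := by
    have h1 : IsUnit (P.eval 2) := by
      rw [hP, PP_eval]
      have := odd_unit e (2 ^ m + 3) (by
        rw [hm, pow_succ]
        omega)
      convert this using 1
      push_cast
      ring
    have h2 := (root_sub_unit P 2 h1).neg
    rwa [map_ofNat, neg_sub] at h2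
  obtain ⟨A, hA⟩ := hu0
  obtain ⟨u1, hu1⟩ := hu1
  obtain ⟨u2, hu2⟩ := hu2
  have h21 : (u2 : AdjoinRoot P) - u1 = 1 := by rw [hu1, hu2]; ring
  have hu2A : (u2 : AdjoinRoot P) = 2 - A := by rw [hu2, hA]
  have hB : (1 : AdjoinRoot P) - ((u1 * u2⁻¹ : (AdjoinRoot P)ˣ) : AdjoinRoot P) =
      ((u2⁻¹ : (AdjoinRoot P)ˣ) : AdjoinRoot P) := by
    have h3 : (u2 : AdjoinRoot P) * ((u2⁻¹ : (AdjoinRoot P)ˣ) : AdjoinRoot P) = 1 := u2.mul_inv
    rw [Units.val_mul]
    linear_combination ((u2⁻¹ : (AdjoinRoot P)ˣ) : AdjoinRoot P) * h21 - h3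
  have hAB : (A : AdjoinRoot P) * (1 - ((u1 * u2⁻¹ : (AdjoinRoot P)ˣ) : AdjoinRoot P)) =
      1 - 2 * ((u1 * u2⁻¹ : (AdjoinRoot P)ˣ) : AdjoinRoot P) := by
    have h3 : (u2 : AdjoinRoot P) * ((u2⁻¹ : (AdjoinRoot P)ˣ) : AdjoinRoot P) = 1 := u2.mul_inv
    have h4 : ((u1 * u2⁻¹ : (AdjoinRoot P)ˣ) : AdjoinRoot P) =
      1 - ((u2⁻¹ : (AdjoinRoot P)ˣ) : AdjoinRoot P) := by rw [← hB]; ring
    rw [hB, h4]
    linear_combination ((u2⁻¹ : (AdjoinRoot P)ˣ) : AdjoinRoot P) * hu2A - h3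
  refine ⟨AdjoinRoot P, inferInstance, hfin, (AdjoinRoot.of P).toAddMonoidHom.comp φ, A,
    u1 * u2⁻¹, hAB, ?_⟩
  rw [hB]
  intro h0
  have h1 : f.sum (fun k u => ((A ^ k : (AdjoinRoot P)ˣ) : AdjoinRoot P) *
      ((AdjoinRoot.of P).toAddMonoidHom.comp φ) (u : X)) = 0 := by
    exact (Units.mul_right_eq_zero _).1 h0
  -- multiply by a power of A
  set p : Polynomial (ZMod (2 ^ e)) :=
    ∑ j ∈ f.support, Polynomial.monomial (j + M).toNat (φ (f j : X)) with hp
  have h2 : AdjoinRoot.mk P p = (A : AdjoinRoot P) ^ M * f.sum (fun k u =>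
      ((A ^ k : (AdjoinRoot P)ˣ) : AdjoinRoot P) *
      ((AdjoinRoot.of P).toAddMonoidHom.comp φ) (u : X)) := by
    rw [hp, map_sum, Finsupp.sum, Finset.mul_sum]
    apply Finset.sum_congr rfl
    intro j hj
    have h3 := hMle j hj
    obtain ⟨n, hn⟩ := Int.eq_ofNat_of_zero_le (a := j + M) (by omega)
    rw [hn, Int.toNat_natCast, ← Polynomial.C_mul_X_pow_eq_monomial, map_mul, map_pow,
      AdjoinRoot.mk_X, AdjoinRoot.mk_C, ← hA, ← Units.val_pow_eq_pow_val, ← mul_assoc,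
      ← Units.val_pow_eq_pow_val, ← Units.val_mul, ← zpow_natCast, ← zpow_natCast, ← zpow_add,
      add_comm (M : ℤ) j, hn, mul_comm]
    rfl
  rw [h1, mul_zero] at h2
  refine AdjoinRoot.mk_ne_zero_of_natDegree_lt hmon ?_ ?_ h2
  · intro hp0
    apply hk
    have hks : k ∈ f.support := by
      rw [Finsupp.mem_support_iff]
      intro h
      apply hk
      rw [h, AddSubgroup.coe_zero, map_zero]
    have h3 := congrArg (fun q => Polynomial.coeff q (k + M).toNat) hp0
    simp only [hp, Polynomial.finsetSum_coeff, Polynomial.coeff_zero,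
      Polynomial.coeff_monomial] at h3
    rw [Finset.sum_eq_single k] at h3
    · simpa using h3
    · intro j hj hjk
      rw [if_neg]
      intro h
      have h4 := hMle j hj
      have h5 := hMle k hks
      omega
    · intro h
      exact absurd hks h
  · rw [hdeg]
    refine lt_of_le_of_lt (Polynomial.natDegree_sum_le_of_forall_le (n := 2 * M) _ _ ?_) (by omega)
    intro j hj
    refine le_trans (Polynomial.natDegree_monomial_le _) ?_
    have h4 := hMle j hj
    omega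

/-- A nonzero element killed by a power of two is detected by some `X → ZMod (2 ^ e)`. -/
theorem phi_exists {X : Type u} [AddCommGroup X] [Finite X] (hX : TwoPrim X) (u : X) (hu : u ≠ 0) :
    ∃ (e : ℕ) (_ : 1 ≤ e) (φ : X →+ ZMod (2 ^ e)), φ u ≠ 0 := by
  classical
  obtain ⟨n, hn⟩ := hX
  obtain ⟨ι, _, p, hp, e, ⟨F⟩⟩ := AddCommGroup.equiv_directSum_zmod_of_finite X
  have h1 : F u ≠ 0 := by
    intro h
    exact hu (F.injective (by rw [h, map_zero]))
  obtain ⟨i, hi⟩ : ∃ i, F u i ≠ 0 := by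
    by_contra hcon
    push Not at hcon
    exact h1 (DFinsupp.ext hcon)
  let ψ : X →+ ZMod (p i ^ e i) :=
    { toFun := fun x => F x i
      map_zero' := by rw [map_zero]; rfl
      map_add' := by intro x y; rw [map_add]; rfl }
  have hψ : ψ u ≠ 0 := hi
  have hei : 1 ≤ e i := by
    by_contra h
    have h0 : e i = 0 := by omega
    apply hψ
    have : Subsingleton (ZMod (p i ^ e i)) := by
      rw [h0, pow_zero]
      infer_instance
    exact Subsingleton.elim _ _
  have hpi : p i = 2 := by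
    by_contra h
    have h2 : 2 ^ n • ψ u = 0 := by rw [← map_nsmul, hn, map_zero]
    rw [nsmul_eq_mul] at h2
    have h3 : IsUnit ((2 ^ n : ℕ) : ZMod (p i ^ e i)) := by
      rw [ZMod.isUnit_iff_coprime]
      apply Nat.Coprime.pow
      exact (Nat.coprime_primes Nat.prime_two (hp i)).2 (fun h' => h h'.symm)
    exact hψ ((h3.mul_right_eq_zero).1 h2)
  refine ⟨e i, hei, ?_⟩
  rw [← hpi]
  exact ⟨ψ, hψ⟩

theorem detect_tau {X : Type u} [AddCommGroup X] [Finite X] (hX : TwoPrim X)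
    (τ : (ℤ →₀ tor X) → PiDelta X)
    (h0 : τ 0 = 1) (hadd : ∀ f g, τ (f + g) = τ f * τ g)
    (hs : ∀ k u, τ (Finsupp.single k u) = cc k (u : X)) (f : ℤ →₀ tor X) (hf : f ≠ 0) :
    ∃ (H : Type) (_ : Group H) (_ : Finite H) (Φ : PiDelta X →* H), Φ (τ f) ≠ 1 := by
  obtain ⟨k, hk⟩ : ∃ k, f k ≠ 0 := by
    by_contra hcon
    push Not at hcon
    exact hf (Finsupp.ext hcon)
  have hk' : (f k : X) ≠ 0 := fun h => hk (Subtype.ext h)
  obtain ⟨e, he, φ, hφ⟩ := phi_exists hX _ hk'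
  obtain ⟨K, _, _, ι, A, B, hAB, hne⟩ := ring_exists e he φ f k hφ
  refine ⟨Equiv.Perm K, inferInstance, inferInstance, rep ι A B hAB, ?_⟩
  rw [rep_tau ι A B hAB τ h0 hadd hs f]
  intro h
  apply hne
  have h2 := congrArg (fun g : Equiv.Perm K => g 0) h
  simpa [trn_apply] using h2

/-- elements of the normal closure of the `w_u` are detected by finite quotients -/
theorem detect_WW {X : Type u} [AddCommGroup X] [Finite X] (hX : TwoPrim X)
    (y : PiDelta X) (hy : y ∈ WW X) (hy1 : y ≠ 1) :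
    ∃ (H : Type) (_ : Group H) (_ : Finite H) (Φ : PiDelta X →* H), Φ y ≠ 1 := by
  obtain ⟨n, hn⟩ := WW_conj hX y hy
  obtain ⟨τ, h0, hadd, hs, hsurj⟩ := tau_exists hX
  obtain ⟨f, hf⟩ := hsurj _ hn
  have hf0 : f ≠ 0 := by
    rintro rfl
    rw [h0] at hf
    apply hy1
    have : y = (b 0 ^ n)⁻¹ * (b 0 ^ n * y * (b 0 ^ n)⁻¹) * b 0 ^ n := by group
    rw [this, ← hf]
    group
  obtain ⟨H, _, _, Φ, hΦ⟩ := detect_tau hX τ h0 hadd hs f hf0
  refine ⟨H, inferInstance, inferInstance, Φ, ?_⟩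
  intro h
  apply hΦ
  rw [hf, map_mul, map_mul, map_inv, h]
  group

end Pool.Agent.R645.SQ
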