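import Pool.Agent.R645.SQ.NonRF
import Pool.Agent.R645.SQ.Detect

/-! `π₁(Δ_X)` is residually finite exactly when `X` is a `2`-group. -/

set_option autoImplicit false

namespace Pool.Agent.R645.SQ

universe u

theorem mk_congr {X Y : Type u} [AddCommGroup X] [AddCommGroup Y] (d : X →+ Y)
    (hker : ∀ x, d x = 0 → x + x = 0) (x x' : X) (h : d x = d x') :
    (QuotientGroup.mk' (WW X) (a x) = QuotientGroup.mk' (WW X) (a x')) ∧
    (QuotientGroup.mk' (WW X) (b x) = QuotientGroup.mk' (WW X) (b x')) := by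
  have hu : (x' - x) + (x' - x) = 0 := by
    apply hker
    rw [map_sub, h, sub_self]
  have e : x' = x + (x' - x) := by abel
  have hw : QuotientGroup.mk' (WW X) (w (x' - x)) = 1 := by
    rw [← MonoidHom.mem_ker, QuotientGroup.ker_mk']
    exact Subgroup.subset_normalClosure ⟨⟨x' - x, hu⟩, rfl⟩
  constructor
  · have h1 := congrArg (QuotientGroup.mk' (WW X)) (a_w (x' - x) hu x)
    rw [map_mul, hw, mul_one] at h1
    rw [← h1, ← e]
  · have h1 := congrArg (QuotientGroup.mk' (WW X)) (w_b (x' - x) hu x)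
    rw [map_mul, hw, one_mul] at h1
    rw [h1, ← e]

theorem ker_le {X Y : Type u} [AddCommGroup X] [AddCommGroup Y] (d : X →+ Y)
    (hsurj : Function.Surjective d) (hker : ∀ x, d x = 0 → x + x = 0) :
    (mapX d).ker ≤ WW X := by
  choose s hs using hsurj
  let σ : PiDelta Y →* PiDelta X ⧸ WW X :=
    lift (fun y => QuotientGroup.mk' (WW X) (a (s y))) (fun y => QuotientGroup.mk' (WW X) (b (s y)))
      (by
        intro i j
        rw [← map_mul, rel, map_mul,
          (mk_congr d hker (s i + s j) (s (i + j)) (by rw [map_add, hs, hs, hs])).2,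
          (mk_congr d hker (s i - s j) (s (i - j)) (by rw [map_sub, hs, hs, hs])).1])
  have h1 : σ.comp (mapX d) = QuotientGroup.mk' (WW X) := by
    apply hom_ext
    · intro i
      rw [MonoidHom.comp_apply, mapX_a, lift_a]
      exact (mk_congr d hker _ _ (hs (d i))).1
    · intro i
      rw [MonoidHom.comp_apply, mapX_b, lift_b]
      exact (mk_congr d hker _ _ (hs (d i))).2
  intro g hg
  rw [MonoidHom.mem_ker] at hg
  have h2 := DFunLike.congr_fun h1 g
  rw [MonoidHom.comp_apply, hg, map_one] at h2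
  rw [← QuotientGroup.ker_mk' (WW X), MonoidHom.mem_ker]
  exact h2.symm

/-- powers of the two generators are separated -/
theorem detect_col {X : Type u} [AddCommGroup X] (p q : ℤ)
    (h : a (0 : X) ^ p * b 0 ^ q ≠ 1) :
    ∃ (H : Type) (_ : Group H) (_ : Finite H) (Φ : PiDelta X →* H),
      Φ (a (0 : X) ^ p * b 0 ^ q) ≠ 1 := by
  have key : ∀ r : ℤ, r ≠ 0 → ((r : ℤ) : ZMod (r.natAbs + 1)) ≠ 0 := by
    intro r hr h
    rw [ZMod.intCast_zmod_eq_zero_iff_dvd] at h
    have h2 := Int.natAbs_dvd_natAbs.2 h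
    have h3 : (((r.natAbs + 1 : ℕ) : ℤ)).natAbs = r.natAbs + 1 := by omega
    rw [h3] at h2
    have h4 := Nat.le_of_dvd (by omega) h2
    omega
  by_cases hp : p = 0
  · have hq : q ≠ 0 := by
      rintro rfl
      apply h
      rw [hp, zpow_zero, zpow_zero, one_mul]
    refine ⟨Multiplicative (ZMod (q.natAbs + 1)), inferInstance, inferInstance,
      lift (fun _ => 1) (fun _ => Multiplicative.ofAdd 1) (by intro i j; rw [one_mul, mul_one]), ?_⟩
    rw [map_mul, map_zpow, map_zpow, lift_a, lift_b, one_zpow, one_mul, ← ofAdd_zsmul]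
    intro h2
    have h3 : q • (1 : ZMod (q.natAbs + 1)) = 0 := Multiplicative.ofAdd.injective h2
    rw [zsmul_eq_mul, mul_one] at h3
    exact key q hq h3
  · refine ⟨Multiplicative (ZMod (p.natAbs + 1)), inferInstance, inferInstance,
      lift (fun _ => Multiplicative.ofAdd 1) (fun _ => 1) (by intro i j; rw [one_mul, mul_one]), ?_⟩
    rw [map_mul, map_zpow, map_zpow, lift_a, lift_b, one_zpow, mul_one, ← ofAdd_zsmul]
    intro h2
    have h3 : p • (1 : ZMod (p.natAbs + 1)) = 0 := Multiplicative.ofAdd.injective h2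
    rw [zsmul_eq_mul, mul_one] at h3
    exact key p hp h3

theorem detect_all (n : ℕ) : ∀ (X : Type u) [AddCommGroup X] [Finite X],
    (∀ x : X, 2 ^ n • x = 0) → ∀ y : PiDelta X, y ≠ 1 →
    ∃ (H : Type) (_ : Group H) (_ : Finite H) (Φ : PiDelta X →* H), Φ y ≠ 1 := by
  induction n with
  | zero =>
    intro X _ _ hX y hy
    have hcol : col X = MonoidHom.id _ := by
      have h0 : ∀ x : X, x = 0 := fun x => by simpa using hX x
      apply hom_ext
      · intro i
        rw [col_a, MonoidHom.id_apply, h0 i]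
      · intro i
        rw [col_b, MonoidHom.id_apply, h0 i]
    obtain ⟨p, q, hpq⟩ := col_form y
    rw [hcol, MonoidHom.id_apply] at hpq
    rw [hpq] at hy ⊢
    exact detect_col p q hy
  | succ n ih =>
    intro X _ _ hX y hy
    let dbl : X →+ X := AddMonoidHom.id X + AddMonoidHom.id X
    have hdbl : ∀ x, dbl x = x + x := fun x => rfl
    have hker : ∀ x, dbl.rangeRestrict x = 0 → x + x = 0 := by
      intro x hx
      rw [← hdbl, ← AddMonoidHom.coe_rangeRestrict, hx]
      rfl
    by_cases h : mapX dbl.rangeRestrict y = 1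
    · exact detect_WW ⟨n + 1, hX⟩ y (ker_le dbl.rangeRestrict dbl.rangeRestrict_surjective hker h) hy
    · obtain ⟨H, _, _, Φ, hΦ⟩ := ih dbl.range (by
        rintro ⟨_, x, rfl⟩
        apply Subtype.ext
        show 2 ^ n • (x + x) = 0
        rw [← two_nsmul, smul_smul, ← pow_succ]
        exact hX x) _ h
      exact ⟨H, inferInstance, inferInstance, Φ.comp (mapX dbl.rangeRestrict), hΦ⟩

theorem rf_of_card (X : Type u) [AddCommGroup X] [Finite X] (k : ℕ) (hk : Nat.card X = 2 ^ k) :
    Group.ResiduallyFinite (PiDelta X) := by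
  apply Group.residuallyFinite_of_forall_exists_finite_monoidHom.{_, 0}
  intro g hg
  apply detect_all k X _ g hg
  intro x
  rw [← hk]
  exact card_nsmul_eq_zero'

theorem rf_of_injective {G H : Type*} [Group G] [Group H] (f : G →* H)
    (hf : Function.Injective f) (hH : Group.ResiduallyFinite H) : Group.ResiduallyFinite G := by
  rw [Group.residuallyFinite_iff_forall_finiteIndexNormalSubgroup]
  intro g hg
  apply hf
  rw [map_one]
  exact Group.eq_one_iff_forall_finiteIndexNormalSubroup (f g) fun K => hg (K.comap f)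

theorem card_of_rf (X : Type u) [AddCommGroup X] [Finite X]
    (h : Group.ResiduallyFinite (PiDelta X)) : ∃ k, Nat.card X = 2 ^ k := by
  have hpos : Nat.card X ≠ 0 := Nat.card_pos.ne'
  obtain ⟨k, m, hm, hkm⟩ := Nat.exists_eq_two_pow_mul_odd hpos
  refine ⟨k, ?_⟩
  by_contra hcon
  have hm1 : m ≠ 1 := by
    rintro rfl
    exact hcon (by rw [hkm, mul_one])
  have hcop : Nat.Coprime m (2 ^ k) := by
    apply Nat.Coprime.pow_right
    rw [Nat.coprime_comm, Nat.coprime_two_left]
    exact hm
  obtain ⟨N, hN1, hN2⟩ := Nat.chineseRemainder hcop 1 0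
  have hN2' : 2 ^ k ∣ N := (Nat.modEq_zero_iff_dvd).1 hN2
  -- multiplication by N
  let f : X →+ X := nsmulAddMonoidHom N
  have hf : ∀ x, f x = N • x := fun x => rfl
  have hmf : ∀ x, m • f x = 0 := by
    intro x
    obtain ⟨c, hc⟩ := hN2'
    rw [hf, smul_smul, hc]
    have : m * (2 ^ k * c) = c * Nat.card X := by rw [hkm]; ring
    rw [this, mul_smul, card_nsmul_eq_zero', smul_zero]
  have hNy : ∀ y : X, m • y = 0 → N • y = y := by
    intro y hy
    by_cases hN0 : N = 0
    · rw [hN0] at hN1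
      have h3 : m ∣ 1 := (Nat.modEq_zero_iff_dvd).1 hN1.symm
      exact absurd (Nat.dvd_one.1 h3) hm1
    · have h3 : m ∣ N - 1 := (Nat.modEq_iff_dvd' (by omega)).1 hN1.symm
      obtain ⟨c, hc⟩ := h3
      have h4 : N = c * m + 1 := by rw [mul_comm, ← hc]; omega
      rw [h4, add_smul, mul_smul, hy, smul_zero, one_smul, zero_add]
  have hinj : Function.Injective (mapX f.range.subtype) := by
    have h3 : (mapX f.rangeRestrict).comp (mapX f.range.subtype) = MonoidHom.id _ := by
      have h4 : ∀ y : f.range, f.rangeRestrict (f.range.subtype y) = y := by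
        rintro ⟨_, x, rfl⟩
        apply Subtype.ext
        show N • f x = f x
        exact hNy _ (hmf x)
      apply hom_ext
      · intro i
        rw [MonoidHom.comp_apply, mapX_a, mapX_a, h4]
        rfl
      · intro i
        rw [MonoidHom.comp_apply, mapX_b, mapX_b, h4]
        rfl
    intro g g' hg
    have h4 := congrArg (mapX f.rangeRestrict) hg
    rw [← MonoidHom.comp_apply, ← MonoidHom.comp_apply, h3] at h4
    exact h4
  have hRF : Group.ResiduallyFinite (PiDelta f.range) := rf_of_injective _ hinj h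
  -- a nonzero element of the range
  obtain ⟨p, hp, hpm⟩ := Nat.exists_prime_and_dvd hm1
  have : Fact p.Prime := ⟨hp⟩
  obtain ⟨x, hx⟩ := exists_prime_addOrderOf_dvd_card' (G := X) p (by
    rw [hkm]
    exact Dvd.dvd.mul_left hpm _)
  have hx0 : x ≠ 0 := by
    rintro rfl
    rw [addOrderOf_zero] at hx
    exact hp.one_lt.ne hx
  have hmx : m • x = 0 := by
    rw [← addOrderOf_dvd_iff_nsmul_eq_zero, hx]
    exact hpm
  have hxr : x ∈ f.range := ⟨x, hNy x hmx⟩
  refine not_rf (X := f.range) ?_ ⟨x, hxr⟩ (fun h' => hx0 (congrArg Subtype.val h')) hRF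
  apply Finite.injective_iff_bijective.1
  intro y z hyz
  have h5 : (y - z) + (y - z) = 0 := by
    have h6 : y + y = z + z := hyz
    calc (y - z) + (y - z) = (y + y) - (z + z) := by abel
      _ = 0 := by rw [h6, sub_self]
  have h7 : m • (y - z) = 0 := by
    obtain ⟨c, hc⟩ := (y - z).2
    apply Subtype.ext
    rw [AddSubgroup.coe_nsmul, ← hc]
    exact hmf c
  obtain ⟨c, hc⟩ := hm
  rw [hc, add_smul, one_smul, mul_comm, mul_smul, two_nsmul, h5, smul_zero, zero_add] at h7
  exact sub_eq_zero.1 h7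

theorem rf_iff (X : Type u) [AddCommGroup X] [Finite X] :
    Group.ResiduallyFinite (PiDelta X) ↔ ∃ k, Nat.card X = 2 ^ k :=
  ⟨card_of_rf X, fun ⟨k, hk⟩ => rf_of_card X k hk⟩

end Pool.Agent.R645.SQ
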