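import Pool.Agent.R645.SQ.Defs

/-! The lamplighter group `X ≀ ℤ` and an HNN extension of it. -/

set_option autoImplicit false

namespace Pool.Agent.R645.SQ

universe u

variable {X : Type u} [AddCommGroup X]

/-- shift of finitely supported functions by `k` -/
noncomputable def sh (k : ℤ) : (ℤ →₀ X) ≃+ (ℤ →₀ X) := Finsupp.domCongr (Equiv.addRight k)

theorem sh_apply (k : ℤ) (f : ℤ →₀ X) (n : ℤ) : sh k f n = f (n - k) := by
  simp [sh, sub_eq_add_neg]

theorem sh_sh (k l : ℤ) (f : ℤ →₀ X) : sh k (sh l f) = sh (k + l) f := by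
  ext n
  rw [sh_apply, sh_apply, sh_apply]
  congr 1
  ring

@[simp] theorem sh_zero (f : ℤ →₀ X) : sh 0 f = f := by
  ext n; rw [sh_apply, sub_zero]

theorem sh_single (k n : ℤ) (i : X) : sh k (Finsupp.single n i) = Finsupp.single (n + k) i := by
  ext m
  rw [sh_apply, Finsupp.single_apply, Finsupp.single_apply]
  congr 1
  simp only [eq_iff_iff]
  omega

variable (X) in
/-- The lamplighter group: pairs `(f, k)` with `f : ℤ →₀ X` and `k : ℤ`. -/
@[ext] structure Lamp where
  /-- the lamps -/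
  f : ℤ →₀ X
  /-- the position -/
  k : ℤ

namespace Lamp

noncomputable instance : Group (Lamp X) where
  mul g h := ⟨g.f + sh g.k h.f, g.k + h.k⟩
  one := ⟨0, 0⟩
  inv g := ⟨-sh (-g.k) g.f, -g.k⟩
  mul_assoc g h l := by
    apply Lamp.ext
    · show (g.f + sh g.k h.f) + sh (g.k + h.k) l.f = g.f + sh g.k (h.f + sh h.k l.f)
      rw [map_add, sh_sh, add_assoc]
    · exact add_assoc _ _ _
  one_mul g := by
    apply Lamp.ext
    · show (0 : ℤ →₀ X) + sh 0 g.f = g.f
      simp
    · exact zero_add _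
  mul_one g := by
    apply Lamp.ext
    · show g.f + sh g.k 0 = g.f
      simp
    · exact add_zero _
  inv_mul_cancel g := by
    apply Lamp.ext
    · show -sh (-g.k) g.f + sh (-g.k) g.f = 0
      simp
    · exact neg_add_cancel _

theorem mul_def (g h : Lamp X) : g * h = ⟨g.f + sh g.k h.f, g.k + h.k⟩ := rfl
theorem one_def : (1 : Lamp X) = ⟨0, 0⟩ := rfl
theorem inv_def (g : Lamp X) : g⁻¹ = ⟨-sh (-g.k) g.f, -g.k⟩ := rfl

/-- the map `f ↦ c f - A f` -/
noncomputable def T (c : ℤ) : (ℤ →₀ X) →+ (ℤ →₀ X) where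
  toFun f := c • f - sh 1 f
  map_zero' := by simp
  map_add' f g := by
    rw [smul_add, map_add]
    abel

theorem T_apply (c : ℤ) (f : ℤ →₀ X) : T c f = c • f - sh 1 f := rfl

theorem T_sh (c k : ℤ) (f : ℤ →₀ X) : T c (sh k f) = sh k (T c f) := by
  rw [T_apply, T_apply, map_sub, sh_sh, sh_sh, add_comm, map_zsmul]

theorem T_injective (c : ℤ) : Function.Injective (T (X := X) c) := by
  rw [injective_iff_map_eq_zero]
  intro f hf
  by_contra hne
  obtain ⟨n, hn, hmax⟩ : ∃ n ∈ f.support, ∀ m ∈ f.support, m ≤ n := by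
    have h1 : f.support.Nonempty := Finsupp.support_nonempty_iff.2 hne
    exact ⟨f.support.max' h1, Finset.max'_mem _ _, fun m hm => Finset.le_max' _ _ hm⟩
  have h1 := DFunLike.congr_fun hf (n + 1)
  rw [T_apply, Finsupp.sub_apply, sh_apply, Finsupp.smul_apply] at h1
  have h2 : f (n + 1) = 0 := by
    by_contra h3
    have := hmax (n + 1) (Finsupp.mem_support_iff.2 h3)
    omega
  rw [h2, smul_zero, zero_sub, Finsupp.zero_apply, neg_eq_zero, add_sub_cancel_right] at h1
  exact (Finsupp.mem_support_iff.1 hn) h1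

theorem T_comm (c d : ℤ) (f : ℤ →₀ X) : T c (T d f) = T d (T c f) := by
  rw [T_apply c (T d f), T_apply c f, map_sub, map_zsmul, T_sh]

theorem T_two_sub (f : ℤ →₀ X) : T 2 f - T 1 f = f := by
  rw [T_apply, T_apply]
  have : (2 : ℤ) • f = f + f := two_zsmul f
  rw [this, one_zsmul]
  abel

/-- the endomorphism `(f, k) ↦ (c f - A f, k)` -/
noncomputable def psi (c : ℤ) : Lamp X →* Lamp X where
  toFun g := ⟨T c g.f, g.k⟩
  map_one' := by
    apply Lamp.ext
    · exact map_zero _
    · rfl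
  map_mul' g h := by
    apply Lamp.ext
    · show T c (g.f + sh g.k h.f) = T c g.f + sh g.k (T c h.f)
      rw [map_add, T_sh]
    · rfl

theorem psi_apply (c : ℤ) (g : Lamp X) : psi c g = ⟨T c g.f, g.k⟩ := rfl

theorem psi_injective (c : ℤ) : Function.Injective (psi (X := X) c) := by
  intro g h hgh
  rw [psi_apply, psi_apply, Lamp.mk.injEq] at hgh
  exact Lamp.ext (T_injective c hgh.1) hgh.2

/-- the isomorphism between the images of `psi 2` and `psi 1` -/
noncomputable def phi : (psi (X := X) 2).range ≃* (psi (X := X) 1).range :=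
  (MonoidHom.ofInjective (psi_injective 2)).symm.trans (MonoidHom.ofInjective (psi_injective 1))

theorem phi_psi (g : Lamp X) : phi ⟨psi 2 g, ⟨g, rfl⟩⟩ = ⟨psi 1 g, ⟨g, rfl⟩⟩ := by
  unfold phi
  rw [MulEquiv.trans_apply]
  have : (MonoidHom.ofInjective (psi_injective 2)).symm ⟨psi 2 g, ⟨g, rfl⟩⟩ = g := by
    rw [MulEquiv.symm_apply_eq]
    rfl
  rw [this]
  rfl

/-- the element `(i δ_0, 1)` -/
noncomputable def al (i : X) : Lamp X := ⟨Finsupp.single 0 i, 1⟩

/-- sum of the lamps -/
noncomputable def ev1 : (ℤ →₀ X) →+ X := Finsupp.liftAddHom (fun _ => AddMonoidHom.id X)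

theorem ev1_single (n : ℤ) (i : X) : ev1 (Finsupp.single n i) = i := by
  simp [ev1]

theorem ev1_sh (f : ℤ →₀ X) (k : ℤ) : ev1 (sh k f) = ev1 f := by
  have h : (ev1.comp (sh k).toAddMonoidHom : (ℤ →₀ X) →+ X) = ev1 := by
    apply Finsupp.addHom_ext
    intro n i
    show ev1 (sh k (Finsupp.single n i)) = _
    rw [sh_single, ev1_single, ev1_single]
  exact DFunLike.congr_fun h f

theorem ev1_T1 (f : ℤ →₀ X) : ev1 (T 1 f) = 0 := by
  rw [T_apply, map_sub, ev1_sh, one_zsmul, sub_self]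

/-- doubling as an automorphism -/
noncomputable def dbl (h2 : Function.Bijective (fun x : X => x + x)) : (AddMonoid.End X)ˣ where
  val := AddMonoidHom.mk' (fun x : X => x + x) (fun x y => by abel)
  inv := ((AddEquiv.ofBijective (AddMonoidHom.mk' (fun x : X => x + x) (fun x y => by abel))
    h2).symm : X ≃+ X).toAddMonoidHom
  val_inv := by
    ext x
    exact (AddEquiv.ofBijective (AddMonoidHom.mk' (fun x : X => x + x) (fun x y => by abel))
      h2).apply_symm_apply x
  inv_val := by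
    ext x
    exact (AddEquiv.ofBijective (AddMonoidHom.mk' (fun x : X => x + x) (fun x y => by abel))
      h2).symm_apply_apply x

theorem dbl_apply (h2 : Function.Bijective (fun x : X => x + x)) (x : X) :
    (dbl h2 : AddMonoid.End X) x = x + x := rfl

/-- evaluation at two -/
noncomputable def ev2 (h2 : Function.Bijective (fun x : X => x + x)) : (ℤ →₀ X) →+ X :=
  Finsupp.liftAddHom (fun n => (show X →+ X from ((dbl h2 ^ n : (AddMonoid.End X)ˣ) : AddMonoid.End X)))

theorem ev2_single (h2 : Function.Bijective (fun x : X => x + x)) (n : ℤ) (i : X) :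
    ev2 h2 (Finsupp.single n i) = ((dbl h2 ^ n : (AddMonoid.End X)ˣ) : AddMonoid.End X) i := by
  exact Finsupp.liftAddHom_apply_single _ _ _

theorem ev2_sh (h2 : Function.Bijective (fun x : X => x + x)) (f : ℤ →₀ X) :
    ev2 h2 (sh 1 f) = ev2 h2 f + ev2 h2 f := by
  have h : ((ev2 h2).comp (sh 1).toAddMonoidHom : (ℤ →₀ X) →+ X) = (2 : ℕ) • ev2 h2 := by
    apply Finsupp.addHom_ext
    intro n i
    show ev2 h2 (sh 1 (Finsupp.single n i)) = 2 • (ev2 h2 (Finsupp.single n i))
    rw [sh_single, ev2_single, ev2_single, add_comm, zpow_add, zpow_one, Units.val_mul]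
    show (dbl h2 : AddMonoid.End X) (((dbl h2 ^ n : (AddMonoid.End X)ˣ) : AddMonoid.End X) i) = _
    rw [dbl_apply, two_nsmul]
  have := DFunLike.congr_fun h f
  rw [← two_nsmul]
  exact this

theorem zpow_apply_eq_zero (u : (AddMonoid.End X)ˣ) (i : X) (h : (u : AddMonoid.End X) i = 0) :
    i = 0 := by
  have h1 : ((u⁻¹ : (AddMonoid.End X)ˣ) : AddMonoid.End X) ((u : AddMonoid.End X) i) = i := by
    have h2 := DFunLike.congr_fun (Units.inv_mul u) i
    exact h2
  rw [← h1, h, map_zero]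

theorem ev2_T2 (h2 : Function.Bijective (fun x : X => x + x)) (f : ℤ →₀ X) :
    ev2 h2 (T 2 f) = 0 := by
  rw [T_apply, map_sub, ev2_sh, map_zsmul, two_zsmul, sub_self]

theorem al_inv_mul_al (j j' : X) :
    (al j)⁻¹ * al j' = ⟨Finsupp.single (-1) (j' - j), 0⟩ := by
  rw [al, al, inv_def, mul_def]
  apply Lamp.ext
  · show -sh (-1) (Finsupp.single 0 j) + sh (-1) (Finsupp.single 0 j') = _
    rw [sh_single, sh_single, Finsupp.single_sub]
    simp only [zero_add]
    abel
  · rfl

theorem eq_of_mem_psi1 {j j' : X} (h : (al j)⁻¹ * al j' ∈ (psi (X := X) 1).range) : j = j' := by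
  obtain ⟨g, hg⟩ := h
  rw [al_inv_mul_al, psi_apply, Lamp.mk.injEq] at hg
  have := congrArg ev1 hg.1
  rw [ev1_T1, ev1_single] at this
  exact (sub_eq_zero.1 this.symm).symm

theorem eq_of_mem_psi2 (h2 : Function.Bijective (fun x : X => x + x)) {j j' : X}
    (h : (al j)⁻¹ * al j' ∈ (psi (X := X) 2).range) : j = j' := by
  obtain ⟨g, hg⟩ := h
  rw [al_inv_mul_al, psi_apply, Lamp.mk.injEq] at hg
  have := congrArg (ev2 h2) hg.1
  rw [ev2_T2, ev2_single] at this
  have h3 := zpow_apply_eq_zero _ _ this.symm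
  exact (sub_eq_zero.1 h3).symm

end Lamp

end Pool.Agent.R645.SQ
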