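import Pool.Agent.R645.SQ.Lamp

/-! If multiplication by two is bijective on the nontrivial abelian group `X`, then `π₁(Δ_X)` is
not residually finite. -/

set_option autoImplicit false

namespace Pool.Agent.R645.SQ

universe u

open Lamp

variable {X : Type u} [AddCommGroup X]

variable (X) in
/-- the HNN extension of the lamplighter group -/
abbrev Lam : Type u :=
  HNNExtension (Lamp X) (psi (X := X) 2).range (psi (X := X) 1).range phi

/-- the inclusion of the base -/
noncomputable def ofL : Lamp X →* Lam X := HNNExtension.of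

/-- the stable letter -/
noncomputable def tt : Lam X := HNNExtension.t

theorem t_of (g : Lamp X) : tt * ofL (psi 2 g) = ofL (psi 1 g) * tt := by
  have h := HNNExtension.t_mul_of (φ := phi (X := X)) ⟨psi 2 g, ⟨g, rfl⟩⟩
  rw [phi_psi] at h
  exact h

/-- the image of `b_j` -/
noncomputable def bx (j : X) : Lam X := ofL (al j) * tt * (ofL (al j))⁻¹

theorem al_mul_al (i j : X) :
    al i * al j = al (i + j) * psi 1 ⟨Finsupp.single (-1) (-j), 1⟩ := by
  rw [psi_apply, T_apply, sh_single]
  apply Lamp.ext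
  · show Finsupp.single 0 i + sh 1 (Finsupp.single 0 j) = Finsupp.single 0 (i + j) +
      sh 1 ((1 : ℤ) • Finsupp.single (-1) (-j) - Finsupp.single (-1 + 1) (-j))
    rw [one_zsmul, map_sub, sh_single, sh_single, sh_single, Finsupp.single_add,
      Finsupp.single_neg, Finsupp.single_neg]
    simp only [neg_add_cancel, zero_add]
    abel
  · rfl

theorem al_mul_psi2 (i j : X) :
    al (i + j) * psi 2 ⟨Finsupp.single (-1) (-j), 1⟩ = al (i - j) * al j := by
  rw [psi_apply, T_apply, sh_single]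
  apply Lamp.ext
  · show Finsupp.single 0 (i + j) +
      sh 1 ((2 : ℤ) • Finsupp.single (-1) (-j) - Finsupp.single (-1 + 1) (-j)) =
      Finsupp.single 0 (i - j) + sh 1 (Finsupp.single 0 j)
    rw [two_zsmul, map_sub, map_add, sh_single, sh_single, sh_single, Finsupp.single_add,
      Finsupp.single_neg, Finsupp.single_neg, Finsupp.single_sub]
    simp only [neg_add_cancel, zero_add]
    abel
  · rfl

theorem rel_Lam (i j : X) : ofL (al i) * bx j = bx (i + j) * ofL (al (i - j)) := by
  have h1 := al_mul_al i j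
  have h2 := al_mul_psi2 i j
  set m : Lamp X := ⟨Finsupp.single (-1) (-j), 1⟩ with hm
  have h3 := t_of m
  unfold bx
  have e1 : ofL (al i) * ofL (al j) = ofL (al (i + j)) * ofL (psi 1 m) := by
    rw [← map_mul, ← map_mul, h1]
  have e2 : ofL (al (i + j)) * ofL (psi 2 m) = ofL (al (i - j)) * ofL (al j) := by
    rw [← map_mul, ← map_mul, h2]
  calc ofL (al i) * (ofL (al j) * tt * (ofL (al j))⁻¹)
      = (ofL (al i) * ofL (al j)) * tt * (ofL (al j))⁻¹ := by group
    _ = ofL (al (i + j)) * (ofL (psi 1 m) * tt) * (ofL (al j))⁻¹ := by rw [e1]; group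
    _ = ofL (al (i + j)) * (tt * ofL (psi 2 m)) * (ofL (al j))⁻¹ := by rw [h3]
    _ = ofL (al (i + j)) * tt * (ofL (al (i + j)))⁻¹ *
        (ofL (al (i + j)) * ofL (psi 2 m)) * (ofL (al j))⁻¹ := by group
    _ = _ := by rw [e2]; group

variable (X) in
/-- the projection to the HNN extension -/
noncomputable def proj : PiDelta X →* Lam X :=
  lift (fun i => ofL (al i)) (fun j => bx j) rel_Lam

theorem proj_a (i : X) : proj X (a i) = ofL (al i) := lift_a _ _ _ _
theorem proj_b (i : X) : proj X (b i) = bx i := lift_b _ _ _ _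

variable (X) in
/-- the free group on the `b_j` -/
noncomputable def fb : FreeGroup X →* PiDelta X := FreeGroup.lift b

variable (X) in
/-- the free group on the `a_i` -/
noncomputable def fa : FreeGroup X →* PiDelta X := FreeGroup.lift a

theorem fb_of (j : X) : fb X (FreeGroup.of j) = b j := FreeGroup.lift_apply_of
theorem fa_of (j : X) : fa X (FreeGroup.of j) = a j := FreeGroup.lift_apply_of

/-! ### Britton's lemma for words in the `b_j` -/

/-- sign of an exponent -/
def sgn (e : Bool) : ℤˣ := if e then 1 else -1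

/-- the word in the HNN extension attached to a word in the `b_j` -/
noncomputable def conv : List (X × Bool) → List (ℤˣ × Lamp X)
  | [] => []
  | [p] => [(sgn p.2, (al p.1)⁻¹)]
  | p :: q :: l => (sgn p.2, (al p.1)⁻¹ * al q.1) :: conv (q :: l)

theorem conv_chain (h2 : Function.Bijective (fun x : X => x + x)) :
    ∀ l : List (X × Bool), FreeGroup.IsReduced l →
    (conv l).IsChain (fun a b => a.2 ∈ HNNExtension.toSubgroup (psi (X := X) 2).range
      (psi (X := X) 1).range a.1 → a.1 = b.1)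
  | [], _ => List.isChain_nil
  | [p], _ => List.isChain_singleton _
  | [p, q], h => by
    unfold conv
    unfold conv
    rw [List.isChain_cons_cons]
    refine ⟨?_, List.isChain_singleton _⟩
    intro hm
    have hpq : p.1 = q.1 := by
      rcases Int.units_eq_one_or (sgn p.2) with h1 | h1
      · simp only [h1, HNNExtension.toSubgroup_one] at hm
        exact eq_of_mem_psi2 h2 hm
      · simp only [h1, HNNExtension.toSubgroup_neg_one] at hm
        exact eq_of_mem_psi1 hm
    have h3 := (FreeGroup.isReduced_cons_cons.1 h).1 hpq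
    show sgn p.2 = sgn q.2
    rw [h3]
  | p :: q :: r :: l, h => by
    have ih := conv_chain h2 (q :: r :: l) (FreeGroup.isReduced_cons_cons.1 h).2
    unfold conv
    unfold conv at ih ⊢
    rw [List.isChain_cons_cons]
    refine ⟨?_, ih⟩
    intro hm
    have hpq : p.1 = q.1 := by
      rcases Int.units_eq_one_or (sgn p.2) with h1 | h1
      · simp only [h1, HNNExtension.toSubgroup_one] at hm
        exact eq_of_mem_psi2 h2 hm
      · simp only [h1, HNNExtension.toSubgroup_neg_one] at hm
        exact eq_of_mem_psi1 hm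
    have h3 := (FreeGroup.isReduced_cons_cons.1 h).1 hpq
    show sgn p.2 = sgn q.2
    rw [h3]

theorem conv_prod : ∀ (p : X × Bool) (l : List (X × Bool)),
    ofL (al p.1) * ((conv (p :: l)).map (fun x => tt ^ (x.1 : ℤ) * ofL x.2)).prod =
      proj X (fb X (FreeGroup.mk (p :: l)))
  | (j, e), [] => by
    unfold conv
    have h1 : (FreeGroup.mk [(j, e)] : FreeGroup X) = cond e (FreeGroup.of j) (FreeGroup.of j)⁻¹ := by
      cases e <;> rfl
    rw [h1]
    cases e
    · simp only [cond_false, map_inv, fb_of, proj_b, List.map_cons, List.map_nil, List.prod_cons,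
        List.prod_nil, sgn]
      unfold bx
      simp
    · simp only [cond_true, fb_of, proj_b, List.map_cons, List.map_nil, List.prod_cons,
        List.prod_nil, sgn]
      unfold bx
      simp [mul_assoc]
  | (j, e), q :: l => by
    have ih := conv_prod q l
    unfold conv
    have h1 : (FreeGroup.mk ((j, e) :: q :: l) : FreeGroup X) =
        cond e (FreeGroup.of j) (FreeGroup.of j)⁻¹ * FreeGroup.mk (q :: l) := by
      cases e <;> rfl
    rw [h1, map_mul, map_mul, ← ih, List.map_cons, List.prod_cons]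
    cases e
    · simp only [cond_false, map_inv, fb_of, proj_b, sgn]
      unfold bx
      simp [mul_assoc]
    · simp only [cond_true, fb_of, proj_b, sgn]
      unfold bx
      simp [mul_assoc]

/-- Britton's lemma: a word in the `b_j` representing an element of the base is trivial. -/
theorem britton (h2 : Function.Bijective (fun x : X => x + x)) (w : FreeGroup X)
    (hw : proj X (fb X w) ∈ (ofL (X := X)).range) : w = 1 := by
  classical
  rcases hl : w.toWord with _ | ⟨p, l⟩
  · exact FreeGroup.toWord_eq_nil_iff.1 hl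
  · exfalso
    have hred : FreeGroup.IsReduced (p :: l) := by
      rw [← hl]
      exact FreeGroup.isReduced_toWord
    let W : HNNExtension.NormalWord.ReducedWord (Lamp X) (psi (X := X) 2).range
        (psi (X := X) 1).range := ⟨al p.1, conv (p :: l), conv_chain h2 _ hred⟩
    have h3 : W.prod phi = proj X (fb X w) := by
      have h4 := conv_prod p l
      rw [← hl, FreeGroup.mk_toWord] at h4
      rw [hl] at h4
      exact h4
    have h5 := HNNExtension.ReducedWord.toList_eq_nil_of_mem_of_range phi W (by rw [h3]; exact hw)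
    have h6 : conv (p :: l) = [] := h5
    rcases l with _ | ⟨q, l⟩
    · unfold conv at h6
      exact List.cons_ne_nil _ _ h6
    · unfold conv at h6
      exact List.cons_ne_nil _ _ h6


/-! ### The symmetry and the factorization -/

variable (X) in
/-- the symmetry `a_i ↦ b_i⁻¹`, `b_j ↦ a_{-j}⁻¹` -/
def sig : PiDelta X →* PiDelta X :=
  lift (fun i => (b i)⁻¹) (fun j => (a (-j))⁻¹) (fun i j => by
    have h := rel (-j) i
    have h1 : -j + i = i - j := by abel
    have h2 : -j - i = -(i + j) := by abel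
    rw [h1, h2] at h
    have h3 := congrArg (fun x => x⁻¹) h
    simpa only [mul_inv_rev] using h3)

theorem sig_a (i : X) : sig X (a i) = (b i)⁻¹ := lift_a _ _ _ _
theorem sig_b (j : X) : sig X (b j) = (a (-j))⁻¹ := lift_b _ _ _ _

/-- the elements `b_j^{±1}` -/
def Ys (y : PiDelta X) : Prop := ∃ j, y = b j ∨ y = (b j)⁻¹

theorem swap_of (h2 : Function.Bijective (fun x : X => x + x)) (k : X) (y : PiDelta X)
    (hy : Ys y) : ∃ (v' : FreeGroup X) (y' : PiDelta X), Ys y' ∧ y * a k = fa X v' * y' := by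
  obtain ⟨l, rfl | rfl⟩ := hy
  · obtain ⟨i, hi⟩ := h2.2 (k + l)
    refine ⟨FreeGroup.of i, b (l - i), ⟨_, Or.inl rfl⟩, ?_⟩
    rw [fa_of, rel]
    have e1 : i + (l - i) = l := by abel
    have e2 : i - (l - i) = k := by
      have : i + i = k + l := hi
      calc i - (l - i) = (i + i) - l := by abel
        _ = k := by rw [this]; abel
    rw [e1, e2]
  · refine ⟨FreeGroup.of (k - (l - k)), (b (l - k))⁻¹, ⟨_, Or.inr rfl⟩, ?_⟩
    have h := rel k (l - k)
    have e1 : k + (l - k) = l := by abel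
    rw [e1] at h
    rw [fa_of, inv_mul_eq_iff_eq_mul, ← mul_assoc, ← h]
    group

theorem swap_inv (k : X) (y : PiDelta X)
    (hy : Ys y) : ∃ (v' : FreeGroup X) (y' : PiDelta X), Ys y' ∧ y * (a k)⁻¹ = fa X v' * y' := by
  obtain ⟨l, rfl | rfl⟩ := hy
  · refine ⟨(FreeGroup.of (k + l))⁻¹, b (k + l + l), ⟨_, Or.inl rfl⟩, ?_⟩
    have h := rel (k + l) l
    have e1 : k + l - l = k := by abel
    rw [e1] at h
    rw [map_inv, fa_of, mul_inv_eq_iff_eq_mul, mul_assoc, ← h]
    group
  · refine ⟨(FreeGroup.of (k - l))⁻¹, (b (k + l))⁻¹, ⟨_, Or.inr rfl⟩, ?_⟩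
    have h := congrArg (fun x => x⁻¹) (rel k l)
    simp only [mul_inv_rev] at h
    rw [map_inv, fa_of, h]

theorem swap (h2 : Function.Bijective (fun x : X => x + x)) (v : FreeGroup X) :
    ∀ y : PiDelta X, Ys y → ∃ (v' : FreeGroup X) (y' : PiDelta X),
      Ys y' ∧ y * fa X v = fa X v' * y' := by
  induction v using FreeGroup.induction_on with
  | C1 => exact fun y hy => ⟨1, y, hy, by rw [map_one]; group⟩
  | of k =>
    intro y hy
    have := swap_of h2 k y hy
    rwa [← fa_of] at this
  | inv_of k _ =>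
    intro y hy
    have := swap_inv k y hy
    rwa [← fa_of, ← map_inv] at this
  | mul u v hu hv =>
    intro y hy
    obtain ⟨u', y1, hy1, e1⟩ := hu y hy
    obtain ⟨v', y2, hy2, e2⟩ := hv y1 hy1
    refine ⟨u' * v', y2, hy2, ?_⟩
    rw [map_mul, ← mul_assoc, e1, mul_assoc, e2, map_mul, mul_assoc]

theorem factor (h2 : Function.Bijective (fun x : X => x + x)) (g : PiDelta X) :
    ∃ v w : FreeGroup X, g = fa X v * fb X w := by
  have hg : g ∈ Subgroup.closure (Set.range (a (X := X)) ∪ Set.range (b (X := X))) := by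
    rw [closure_gens]; trivial
  have key : ∀ (y : PiDelta X), Ys y → ∀ v w : FreeGroup X,
      ∃ v' w' : FreeGroup X, y * (fa X v * fb X w) = fa X v' * fb X w' := by
    intro y hy v w
    obtain ⟨v', y', ⟨j, hj⟩, e⟩ := swap h2 v y hy
    rcases hj with rfl | rfl
    · exact ⟨v', FreeGroup.of j * w, by rw [← mul_assoc, e, map_mul, fb_of, mul_assoc]⟩
    · exact ⟨v', (FreeGroup.of j)⁻¹ * w, by
        rw [← mul_assoc, e, map_mul, map_inv, fb_of, mul_assoc]⟩
  induction hg using Subgroup.closure_induction_left with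
  | one => exact ⟨1, 1, by simp⟩
  | mul_left x hx y hy ih =>
    obtain ⟨v, w, rfl⟩ := ih
    rcases hx with ⟨i, rfl⟩ | ⟨j, rfl⟩
    · exact ⟨FreeGroup.of i * v, w, by rw [map_mul, fa_of, mul_assoc]⟩
    · exact key _ ⟨j, Or.inl rfl⟩ v w
  | inv_mul_cancel x hx y hy ih =>
    obtain ⟨v, w, rfl⟩ := ih
    rcases hx with ⟨i, rfl⟩ | ⟨j, rfl⟩
    · exact ⟨(FreeGroup.of i)⁻¹ * v, w, by rw [map_mul, map_inv, fa_of, mul_assoc]⟩
    · exact key _ ⟨j, Or.inr rfl⟩ v w

theorem proj_fa (v : FreeGroup X) : proj X (fa X v) ∈ (ofL (X := X)).range := by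
  have h : (proj X).comp (fa X) = ofL.comp (FreeGroup.lift al) := by
    ext i
    simp only [MonoidHom.comp_apply, fa_of, proj_a, FreeGroup.lift_apply_of]
  have h1 := DFunLike.congr_fun h v
  exact ⟨_, h1.symm⟩

theorem sig_fa (v : FreeGroup X) :
    sig X (fa X v) = fb X (FreeGroup.lift (fun i => (FreeGroup.of i)⁻¹) v) := by
  have h : (sig X).comp (fa X) =
      (fb X).comp (FreeGroup.lift (fun i => (FreeGroup.of i : FreeGroup X)⁻¹)) := by
    ext i
    simp only [MonoidHom.comp_apply, fa_of, sig_a, FreeGroup.lift_apply_of, map_inv, fb_of]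
  exact DFunLike.congr_fun h v

omit [AddCommGroup X] in
theorem nu_nu (v : FreeGroup X) :
    FreeGroup.lift (fun i => (FreeGroup.of i : FreeGroup X)⁻¹)
      (FreeGroup.lift (fun i => (FreeGroup.of i : FreeGroup X)⁻¹) v) = v := by
  have h : (FreeGroup.lift (fun i => (FreeGroup.of i : FreeGroup X)⁻¹)).comp
      (FreeGroup.lift (fun i => (FreeGroup.of i : FreeGroup X)⁻¹)) =
      MonoidHom.id (FreeGroup X) := by
    ext i
    simp
  exact DFunLike.congr_fun h v

theorem inter (h2 : Function.Bijective (fun x : X => x + x)) (g : PiDelta X)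
    (h : proj X g = 1) (h' : proj X (sig X g) = 1) : g = 1 := by
  obtain ⟨v, w, rfl⟩ := factor h2 g
  have h3 : proj X (fb X w) = (proj X (fa X v))⁻¹ := by
    rw [map_mul] at h
    exact eq_inv_of_mul_eq_one_right h
  have h4 : w = 1 := by
    apply britton h2
    rw [h3]
    exact Subgroup.inv_mem _ (proj_fa v)
  subst h4
  rw [map_one, mul_one] at h' ⊢
  rw [sig_fa] at h'
  have h5 := britton h2 _ (by rw [h']; exact Subgroup.one_mem _)
  have h6 := nu_nu v
  rw [h5, map_one] at h6
  rw [← h6, map_one]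

/-- the two kernels commute -/
theorem kers_commute (h2 : Function.Bijective (fun x : X => x + x)) (g h : PiDelta X)
    (hg : proj X g = 1) (hh : proj X (sig X h) = 1) : g * h = h * g := by
  have h1 : g * h * g⁻¹ * h⁻¹ = 1 := by
    apply inter h2
    · simp [hg]
    · simp [hh]
  rw [mul_inv_eq_one, mul_inv_eq_iff_eq_mul] at h1
  exact h1

/-! ### Surjectivity of the projection -/

theorem lamp_mem (g : Lamp X) : ofL g ∈ (proj X).range := by
  have h0 : ofL (al (0 : X)) ∈ (proj X).range := ⟨a 0, proj_a 0⟩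
  have hs : ∀ k : ℤ, (al (0 : X)) ^ k = ⟨0, k⟩ := by
    intro k
    induction k using Int.induction_on with
    | zero => rfl
    | succ n ih =>
      rw [zpow_add_one, ih, al, mul_def]
      apply Lamp.ext
      · simp
      · rfl
    | pred n ih =>
      rw [zpow_sub_one, ih, al, inv_def, mul_def]
      apply Lamp.ext
      · simp
      · show -(n : ℤ) + -1 = _
        ring
  have hk : ∀ k : ℤ, ofL (⟨0, k⟩ : Lamp X) ∈ (proj X).range := by
    intro k
    rw [← hs, map_zpow]
    exact Subgroup.zpow_mem _ h0 k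
  have h1 : ∀ (n : ℤ) (i : X), ofL (⟨Finsupp.single n i, 0⟩ : Lamp X) ∈ (proj X).range := by
    intro n i
    have e : (⟨Finsupp.single n i, 0⟩ : Lamp X) =
        ⟨0, n⟩ * (al i * (al 0)⁻¹) * ⟨0, -n⟩ := by
      rw [al, al, inv_def, mul_def, mul_def, mul_def]
      apply Lamp.ext
      · simp [sh_single]
      · show (0 : ℤ) = n + (1 + -1) + -n
        ring
    rw [e, map_mul, map_mul, map_mul, map_inv]
    exact Subgroup.mul_mem _ (Subgroup.mul_mem _ (hk n)
      (Subgroup.mul_mem _ ⟨a i, proj_a i⟩ (Subgroup.inv_mem _ h0))) (hk (-n))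
  have h3 : ∀ f : ℤ →₀ X, ofL (⟨f, 0⟩ : Lamp X) ∈ (proj X).range := by
    intro f
    induction f using Finsupp.induction_linear with
    | zero => exact hk 0
    | add f g hf hg =>
      have e : (⟨f + g, 0⟩ : Lamp X) = ⟨f, 0⟩ * ⟨g, 0⟩ := by
        rw [mul_def]
        apply Lamp.ext
        · simp
        · rfl
      rw [e, map_mul]
      exact Subgroup.mul_mem _ hf hg
    | single n i => exact h1 n i
  have e : g = ⟨g.f, 0⟩ * ⟨0, g.k⟩ := by
    rw [mul_def]
    apply Lamp.ext
    · simp
    · show g.k = 0 + g.k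
      ring
  rw [e, map_mul]
  exact Subgroup.mul_mem _ (h3 _) (hk _)

theorem proj_surjective : Function.Surjective (proj X) := by
  rw [← MonoidHom.range_eq_top, eq_top_iff]
  intro x _
  induction x using HNNExtension.induction_on with
  | of g => exact lamp_mem g
  | t =>
    have h : (HNNExtension.t : Lam X) = (ofL (al 0))⁻¹ * bx 0 * ofL (al 0) := by
      unfold bx tt
      group
    rw [h]
    exact Subgroup.mul_mem _ (Subgroup.mul_mem _ (Subgroup.inv_mem _ (lamp_mem _))
      ⟨b 0, proj_b 0⟩) (lamp_mem _)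
  | mul x y hx hy => exact Subgroup.mul_mem _ (hx trivial) (hy trivial)
  | inv x hx => exact Subgroup.inv_mem _ (hx trivial)

/-! ### Finite quotients of the HNN extension -/

/-- translations -/
noncomputable def tr (f : ℤ →₀ X) : Lam X := ofL ⟨f, 0⟩

theorem tr_add (f g : ℤ →₀ X) : tr (f + g) = tr f * tr g := by
  unfold tr
  rw [← map_mul, mul_def]
  congr 2
  simp

theorem tt_tr (f : ℤ →₀ X) : tt * tr (T 2 f) = tr (T 1 f) * tt := t_of ⟨f, 0⟩

theorem al_tr (j : X) (f : ℤ →₀ X) : ofL (al j) * tr f = tr (sh 1 f) * ofL (al j) := by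
  unfold tr
  rw [← map_mul, ← map_mul, mul_def, mul_def, al]
  congr 2
  · simp [add_comm]

theorem tr_bx (j : X) (f : ℤ →₀ X) : tr (T 1 f) * bx j = bx j * tr (T 2 f) := by
  have h1 : ∀ g : ℤ →₀ X, tr g * ofL (al j) = ofL (al j) * tr (sh (-1) g) := by
    intro g
    rw [al_tr, sh_sh]
    simp
  have h2 : ∀ g : ℤ →₀ X, tr (sh (-1) g) * (ofL (al j))⁻¹ = (ofL (al j))⁻¹ * tr g := by
    intro g
    rw [eq_inv_mul_iff_mul_eq, ← mul_assoc, ← h1]
    group
  unfold bx
  calc tr (T 1 f) * (ofL (al j) * tt * (ofL (al j))⁻¹)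
      = (tr (T 1 f) * ofL (al j)) * tt * (ofL (al j))⁻¹ := by group
    _ = ofL (al j) * (tr (T 1 (sh (-1) f)) * tt) * (ofL (al j))⁻¹ := by
        rw [h1, T_sh]; group
    _ = ofL (al j) * tt * (tr (T 2 (sh (-1) f)) * (ofL (al j))⁻¹) := by
        rw [← tt_tr]; group
    _ = _ := by rw [T_sh, h2]; group

theorem star {Q : Type*} [Group Q] [Finite Q] (q : Lam X →* Q) (c : ℤ →₀ X) :
    ∃ m : ℤ →₀ X, q (tr c) = q (tr (T 1 (T 1 m))) := by
  let Φ : (ℤ →₀ X) →+ Additive Q :=
    AddMonoidHom.mk' (fun m => Additive.ofMul (q (tr m))) (fun f g => by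
      rw [tr_add, map_mul]
      rfl)
  have hΦ : ∀ m, Φ m = Additive.ofMul (q (tr m)) := fun _ => rfl
  have hker : ∀ m, m ∈ Φ.ker ↔ q (tr m) = 1 := fun m => Iff.rfl
  have : Finite ((ℤ →₀ X) ⧸ Φ.ker) := by
    have : Finite (Additive Q) := inferInstanceAs (Finite Q)
    exact Finite.of_injective _ (QuotientAddGroup.kerLift_injective Φ)
  have hsh : ∀ m, m ∈ Φ.ker → sh 1 m ∈ Φ.ker := by
    intro m hm
    rw [hker] at hm ⊢
    have h1 := congrArg q (al_tr 0 m)
    rw [map_mul, map_mul, hm, mul_one] at h1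
    have h2 : q (tr (sh 1 m)) * q (ofL (al 0)) = 1 * q (ofL (al 0)) := by rw [← h1, one_mul]
    exact mul_right_cancel h2
  have hT : Φ.ker ≤ Φ.ker.comap (T 1) := by
    intro m hm
    show T 1 m ∈ Φ.ker
    rw [T_apply, one_zsmul]
    exact AddSubgroup.sub_mem _ hm (hsh m hm)
  have hinj : ∀ m, T 1 m ∈ Φ.ker → m ∈ Φ.ker := by
    intro m hm
    have h1 : T 2 m ∈ Φ.ker := by
      rw [hker] at hm ⊢
      have h2 := congrArg q (tt_tr m)
      rw [map_mul, map_mul, hm, one_mul] at h2
      have h3 : q tt * q (tr (T 2 m)) = q tt * 1 := by rw [h2, mul_one]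
      exact mul_left_cancel h3
    rw [← T_two_sub m]
    exact AddSubgroup.sub_mem _ h1 hm
  let F : ((ℤ →₀ X) ⧸ Φ.ker) →+ ((ℤ →₀ X) ⧸ Φ.ker) := QuotientAddGroup.map _ _ (T 1) hT
  have hF : Function.Injective F := by
    rw [injective_iff_map_eq_zero]
    intro x hx
    obtain ⟨m, rfl⟩ := QuotientAddGroup.mk_surjective x
    have h1 : (QuotientAddGroup.mk (T 1 m) : (ℤ →₀ X) ⧸ Φ.ker) = 0 := hx
    rw [QuotientAddGroup.eq_zero_iff] at h1 ⊢
    exact hinj m h1
  have hFs : Function.Surjective F := Finite.injective_iff_surjective.1 hF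
  obtain ⟨y, hy⟩ := hFs (QuotientAddGroup.mk c)
  obtain ⟨z, rfl⟩ := hFs y
  obtain ⟨m, rfl⟩ := QuotientAddGroup.mk_surjective z
  refine ⟨m, ?_⟩
  have h1 : (QuotientAddGroup.mk (T 1 (T 1 m)) : (ℤ →₀ X) ⧸ Φ.ker) = QuotientAddGroup.mk c := hy
  rw [QuotientAddGroup.eq] at h1
  rw [AddMonoidHom.mem_ker, map_add, map_neg] at h1
  have h2 : Φ c = Φ (T 1 (T 1 m)) := by
    rw [neg_add_eq_zero] at h1
    exact h1.symm
  exact h2


/-! ### The element in the finite residual -/

theorem commute_u (c : X) (y : ℤ →₀ X) : Commute (tr (T 1 y)) (bx c * (bx 0)⁻¹) := by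
  have h1 := tr_bx c y
  have h2 := tr_bx 0 y
  have h3 : tr (T 2 y) * (bx (0 : X))⁻¹ = (bx 0)⁻¹ * tr (T 1 y) := by
    rw [eq_inv_mul_iff_mul_eq, ← mul_assoc, ← h2]
    group
  show tr (T 1 y) * (bx c * (bx 0)⁻¹) = bx c * (bx 0)⁻¹ * tr (T 1 y)
  rw [← mul_assoc, h1, mul_assoc, h3, mul_assoc]

theorem commute_v (c : X) (y : ℤ →₀ X) :
    Commute (tr (T 1 (T 1 y))) (bx 0 * (bx c * (bx 0)⁻¹) * (bx 0)⁻¹) := by
  have h1 := (commute_u c (T 2 y)).eq
  have h2 := tr_bx 0 (T 1 y)
  rw [T_comm 2 1] at h2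
  have h4 : tr (T 1 (T 1 y)) = bx 0 * tr (T 1 (T 2 y)) * (bx 0)⁻¹ := by
    rw [← h2]; group
  show _ = _
  rw [h4]
  calc bx 0 * tr (T 1 (T 2 y)) * (bx 0)⁻¹ * (bx 0 * (bx c * (bx 0)⁻¹) * (bx 0)⁻¹)
      = bx 0 * (tr (T 1 (T 2 y)) * (bx c * (bx 0)⁻¹)) * (bx 0)⁻¹ := by group
    _ = _ := by rw [h1]; group

/-- the word `u = b_c b_0⁻¹` -/
def wu (c : X) : FreeGroup X := FreeGroup.of c * (FreeGroup.of 0)⁻¹
/-- the word `v = b_0 u b_0⁻¹` -/
def wv (c : X) : FreeGroup X := FreeGroup.of 0 * wu c * (FreeGroup.of 0)⁻¹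
/-- the word `k = [u, v]` -/
def wk (c : X) : FreeGroup X := wu c * wv c * (wu c)⁻¹ * (wv c)⁻¹

theorem proj_wu (c : X) : proj X (fb X (wu c)) = bx c * (bx 0)⁻¹ := by
  simp only [wu, map_mul, map_inv, fb_of, proj_b]

theorem proj_wv (c : X) : proj X (fb X (wv c)) = bx 0 * (bx c * (bx 0)⁻¹) * (bx 0)⁻¹ := by
  simp only [wv, map_mul, map_inv, fb_of, proj_b, proj_wu]

theorem commute_k (c : X) (y : ℤ →₀ X) :
    Commute (tr (T 1 (T 1 y))) (proj X (fb X (wk c))) := by
  have h1 := commute_u c (T 1 y)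
  have h2 := commute_v c y
  rw [← proj_wu] at h1
  rw [← proj_wv] at h2
  simp only [wk, map_mul, map_inv]
  exact ((h1.mul_right h2).mul_right h1.inv_right).mul_right h2.inv_right

/-- the element `a_c a_0⁻¹` -/
def ic (c : X) : PiDelta X := a c * (a 0)⁻¹

theorem proj_ic (c : X) : proj X (ic c) = tr (Finsupp.single 0 c) := by
  unfold ic tr
  rw [map_mul, map_inv, proj_a, proj_a, ← map_inv, ← map_mul]
  congr 1
  rw [al, al, inv_def, mul_def]
  apply Lamp.ext
  · simp
  · rfl

/-- the element `z = [a_c a_0⁻¹, k]` -/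
noncomputable def zz (c : X) : PiDelta X := ic c * fb X (wk c) * (ic c)⁻¹ * (fb X (wk c))⁻¹

theorem proj_sig_k (c : X) : proj X (sig X (fb X (wk c))) = 1 := by
  have h1 : proj X (sig X (fb X (wu c))) = tr (Finsupp.single (-1) c) := by
    simp only [wu, map_mul, map_inv, fb_of, sig_b, proj_a, inv_inv]
    unfold tr
    rw [← map_inv, ← map_mul, al_inv_mul_al]
    simp
  have h2 : proj X (sig X (fb X (wv c))) = tr (Finsupp.single (-2) c) := by
    simp only [wv, map_mul, map_inv, fb_of, sig_b, proj_a, inv_inv, h1]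
    have h3 := al_tr (X := X) 0 (Finsupp.single (-2) c)
    rw [sh_single] at h3
    have h4 : (-2 + 1 : ℤ) = -1 := by norm_num
    rw [h4] at h3
    rw [neg_zero, mul_assoc, ← h3]
    group
  have h3 : tr (Finsupp.single (-1) c) * tr (Finsupp.single (-2) c) =
      tr (Finsupp.single (-2) c) * tr (Finsupp.single (-1) c) := by
    rw [← tr_add, ← tr_add, add_comm]
  simp only [wk, map_mul, map_inv] at *
  rw [h1, h2, h3]
  group

theorem proj_sig_z (c : X) : proj X (sig X (zz c)) = 1 := by
  simp only [zz, map_mul, map_inv, proj_sig_k]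
  group

theorem tr_conj_bx (c j : X) :
    tr (Finsupp.single 0 c) * bx j * (tr (Finsupp.single 0 c))⁻¹ = bx (j + c) := by
  have h : tr (Finsupp.single 0 c) * ofL (al j) = ofL (al (j + c)) := by
    unfold tr
    rw [← map_mul]
    congr 1
    rw [al, al, mul_def]
    apply Lamp.ext
    · simp only [sh_zero]
      rw [Finsupp.single_add, add_comm]
    · rfl
  have h' : (ofL (al j))⁻¹ * (tr (Finsupp.single 0 c))⁻¹ = (ofL (al (j + c)))⁻¹ := by
    rw [← h, mul_inv_rev]
  unfold bx
  rw [← h', ← h]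
  group

/-- shift of indices -/
def shw (c : X) : FreeGroup X →* FreeGroup X := FreeGroup.lift (fun j => FreeGroup.of (j + c))

theorem tr_conj (c : X) (w : FreeGroup X) :
    tr (Finsupp.single 0 c) * proj X (fb X w) * (tr (Finsupp.single 0 c))⁻¹ =
      proj X (fb X (shw c w)) := by
  have h : (MulAut.conj (tr (Finsupp.single 0 c))).toMonoidHom.comp ((proj X).comp (fb X)) =
      ((proj X).comp (fb X)).comp (shw c) := by
    ext j
    simp only [MonoidHom.comp_apply, fb_of, proj_b, shw, FreeGroup.lift_apply_of]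
    exact tr_conj_bx c j
  exact DFunLike.congr_fun h w

/-- the word representing `z` -/
def wr (c : X) : FreeGroup X := shw c (wk c) * (wk c)⁻¹

theorem proj_z (c : X) : proj X (zz c) = proj X (fb X (wr c)) := by
  simp only [zz, wr, map_mul, map_inv, proj_ic, ← tr_conj]

/-- the element of the finite residual -/
noncomputable def hh (c : X) : PiDelta X :=
  zz c * (b c * zz c * (b c)⁻¹) * (zz c)⁻¹ * (b c * zz c * (b c)⁻¹)⁻¹

/-- the word representing it -/
def wh (c : X) : FreeGroup X :=
  wr c * (FreeGroup.of c * wr c * (FreeGroup.of c)⁻¹) * (wr c)⁻¹ *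
    (FreeGroup.of c * wr c * (FreeGroup.of c)⁻¹)⁻¹

theorem proj_h (c : X) : proj X (hh c) = proj X (fb X (wh c)) := by
  simp only [hh, wh, map_mul, map_inv, proj_z, proj_b, fb_of]

theorem wh_ne_one (c : X) (hc : c ≠ 0) (hcc : c + c ≠ 0) : wh c ≠ 1 := by
  classical
  intro h
  let p : Equiv.Perm (Fin 4) := Equiv.swap 1 2 * Equiv.swap 2 3
  let q : Equiv.Perm (Fin 4) := Equiv.swap 0 1
  let f : X → Equiv.Perm (Fin 4) := fun y => if y = c then p else if y = c + c then q else 1
  have f0 : f 0 = 1 := by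
    simp only [f]
    rw [if_neg (Ne.symm hc), if_neg (Ne.symm hcc)]
  have f1 : f c = p := if_pos rfl
  have f2 : f (c + c) = q := by
    have h1 : ¬ (c + c = c) := fun h1 => hc (add_eq_right.1 h1)
    show (if c + c = c then p else if c + c = c + c then q else 1) = q
    rw [if_neg h1]
    exact if_pos rfl
  have h1 := congrArg (FreeGroup.lift f) h
  simp only [wh, wr, shw, wk, wv, wu, map_mul, map_inv, FreeGroup.lift_apply_of, map_one, zero_add,
    f0, f1, f2] at h1
  revert h1
  simp only [p, q]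
  decide +kernel

theorem hh_ne_one (h2 : Function.Bijective (fun x : X => x + x)) (c : X) (hc : c ≠ 0) :
    hh c ≠ 1 := by
  intro h
  have h1 := proj_h c
  rw [h, map_one] at h1
  have h3 : c + c ≠ 0 := by
    intro h4
    apply hc
    apply h2.1
    show c + c = 0 + 0
    rw [h4, add_zero]
  apply wh_ne_one c hc h3
  apply britton h2
  rw [← h1]
  exact Subgroup.one_mem _

theorem hh_mem (h2 : Function.Bijective (fun x : X => x + x)) (c : X)
    (N : Subgroup (PiDelta X)) [N.Normal] [N.FiniteIndex] : hh c ∈ N := by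
  have hN : (N.map (proj X)).Normal := Subgroup.Normal.map inferInstance _ proj_surjective
  have hfin : Finite (Lam X ⧸ N.map (proj X)) := by
    have h1 : N ≤ (N.map (proj X)).comap (proj X) := Subgroup.le_comap_map _ _
    have : Finite (PiDelta X ⧸ N) := Subgroup.finite_quotient_of_finiteIndex
    apply Finite.of_surjective (QuotientGroup.map N (N.map (proj X)) (proj X) h1)
    intro x
    obtain ⟨y, rfl⟩ := QuotientGroup.mk_surjective x
    obtain ⟨g, rfl⟩ := proj_surjective y
    exact ⟨QuotientGroup.mk g, rfl⟩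
  obtain ⟨m, hm⟩ := star (QuotientGroup.mk' (N.map (proj X))) (Finsupp.single 0 c)
  have hz : proj X (zz c) ∈ N.map (proj X) := by
    rw [← QuotientGroup.ker_mk' (N.map (proj X)), MonoidHom.mem_ker]
    have h3 := congrArg (QuotientGroup.mk' (N.map (proj X))) (commute_k c m).eq
    rw [map_mul, map_mul, ← hm] at h3
    simp only [zz, map_mul, map_inv, proj_ic] at h3 ⊢
    rw [h3]
    group
  obtain ⟨n, hn, hnz⟩ := hz
  have h4 : proj X (n⁻¹ * zz c) = 1 := by
    rw [map_mul, map_inv, hnz]
    group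
  have h5 : proj X (sig X (b c * zz c * (b c)⁻¹)) = 1 := by
    simp only [map_mul, map_inv, proj_sig_z]
    group
  have h6 := kers_commute h2 _ _ h4 h5
  set s : PiDelta X := n⁻¹ * zz c with hs
  set z' : PiDelta X := b c * zz c * (b c)⁻¹ with hz'
  have h7 : QuotientGroup.mk' N (zz c) = QuotientGroup.mk' N s := by
    have h8 : QuotientGroup.mk' N n = 1 := by
      rw [← MonoidHom.mem_ker, QuotientGroup.ker_mk']
      exact hn
    rw [hs, map_mul, map_inv, h8]
    group
  rw [← QuotientGroup.ker_mk' N, MonoidHom.mem_ker]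
  have h9 : hh c = zz c * z' * (zz c)⁻¹ * z'⁻¹ := rfl
  rw [h9, map_mul, map_mul, map_mul, map_inv, map_inv, h7, ← map_mul, h6, map_mul]
  group

/-- If multiplication by two is bijective on the nontrivial abelian group `X`, then `π₁(Δ_X)` is
not residually finite. -/
theorem not_rf (h2 : Function.Bijective (fun x : X => x + x)) (c : X) (hc : c ≠ 0) :
    ¬ Group.ResiduallyFinite (PiDelta X) := by
  intro h
  apply hh_ne_one h2 c hc
  apply Group.residuallyFinite_iff_forall_finiteIndexNormalSubgroup.1 h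
  intro H
  exact hh_mem h2 c H.toSubgroup

end Pool.Agent.R645.SQ
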