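import Pool.Agent.R645.SQ.Abel

/-! Finite affine representations of `π₁(Δ_X)`. -/

set_option autoImplicit false

namespace Pool.Agent.R645.SQ

universe u

section rep
variable {X : Type u} [AddCommGroup X] {K : Type*} [CommRing K] (ι : X →+ K) (A B : Kˣ)

/-- the image of `a_i` -/
def aPerm (i : X) : Equiv.Perm K where
  toFun m := A * m + ι i
  invFun m := (A⁻¹ : Kˣ) * (m - ι i)
  left_inv m := by simp
  right_inv m := by simp

/-- the image of `b_j` -/
def bPerm (j : X) : Equiv.Perm K where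
  toFun m := B * (m - ι j) + ι j
  invFun m := (B⁻¹ : Kˣ) * (m - ι j) + ι j
  left_inv m := by simp
  right_inv m := by simp

lemma aPerm_apply (i : X) (m : K) : aPerm ι A i m = A * m + ι i := rfl

lemma bPerm_apply (j : X) (m : K) : bPerm ι B j m = B * (m - ι j) + ι j := rfl

lemma perm_rel (hAB : (A : K) * (1 - B) = 1 - 2 * B) (i j : X) :
    aPerm ι A i * bPerm ι B j = bPerm ι B (i + j) * aPerm ι A (i - j) := by
  ext m
  rw [Equiv.Perm.mul_apply, Equiv.Perm.mul_apply, aPerm_apply, aPerm_apply, bPerm_apply,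
    bPerm_apply, map_add, map_sub]
  linear_combination (ι j) * hAB

/-- The representation on `K`. -/
def rep (hAB : (A : K) * (1 - B) = 1 - 2 * B) : PiDelta X →* Equiv.Perm K :=
  lift (aPerm ι A) (bPerm ι B) (perm_rel ι A B hAB)

/-- translations -/
def trn (v : K) : Equiv.Perm K := Equiv.addRight v

lemma trn_apply (v m : K) : trn v m = m + v := rfl

lemma trn_add (v v' : K) : trn (v + v') = trn v * trn v' := by
  ext m
  rw [Equiv.Perm.mul_apply, trn_apply, trn_apply, trn_apply]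
  ring

lemma trn_zero : trn (0 : K) = 1 := by
  ext m
  rw [trn_apply, Equiv.Perm.one_apply, add_zero]

lemma rep_w (hAB : (A : K) * (1 - B) = 1 - 2 * B) (u : X) :
    rep ι A B hAB (w u) = trn ((1 - (B : K)) * ι u) := by
  unfold w rep
  rw [map_mul, map_inv, lift_b, lift_b, mul_inv_eq_iff_eq_mul]
  ext m
  rw [Equiv.Perm.mul_apply, trn_apply, bPerm_apply, bPerm_apply, map_zero]
  ring

lemma aPerm_tr (v : K) : aPerm ι A 0 * trn v * (aPerm ι A 0)⁻¹ = trn ((A : K) * v) := by
  rw [mul_inv_eq_iff_eq_mul]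
  ext m
  rw [Equiv.Perm.mul_apply, Equiv.Perm.mul_apply, trn_apply, trn_apply, aPerm_apply, aPerm_apply]
  ring

lemma aPerm_pow_tr (n : ℕ) (v : K) :
    aPerm ι A 0 ^ n * trn v * (aPerm ι A 0 ^ n)⁻¹ = trn ((A : K) ^ n * v) := by
  induction n with
  | zero => simp
  | succ n ih =>
    have e : aPerm ι A 0 ^ (n + 1) * trn v * (aPerm ι A 0 ^ (n + 1))⁻¹ =
      aPerm ι A 0 * (aPerm ι A 0 ^ n * trn v * (aPerm ι A 0 ^ n)⁻¹) * (aPerm ι A 0)⁻¹ := by
      rw [pow_succ']; group
    rw [e, ih, aPerm_tr]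
    congr 1
    ring

lemma aPerm_zpow_tr (k : ℤ) (v : K) :
    aPerm ι A 0 ^ k * trn v * (aPerm ι A 0 ^ k)⁻¹ = trn (((A ^ k : Kˣ) : K) * v) := by
  obtain ⟨n, rfl | rfl⟩ := Int.eq_nat_or_neg k
  · rw [zpow_natCast, zpow_natCast, aPerm_pow_tr, Units.val_pow_eq_pow_val]
  · have h := aPerm_pow_tr ι A n (((A ^ (-(n : ℤ)) : Kˣ) : K) * v)
    have e : (A : K) ^ n * (((A ^ (-(n : ℤ)) : Kˣ) : K) * v) = v := by
      rw [← mul_assoc, ← Units.val_pow_eq_pow_val, ← Units.val_mul, zpow_neg, zpow_natCast,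
        mul_inv_cancel, Units.val_one, one_mul]
    rw [e] at h
    rw [← h]
    group

lemma rep_cc (hAB : (A : K) * (1 - B) = 1 - 2 * B) (k : ℤ) (u : X) :
    rep ι A B hAB (cc k u) = trn ((1 - (B : K)) * (((A ^ k : Kˣ) : K) * ι u)) := by
  unfold cc
  rw [map_mul, map_mul, map_inv, map_zpow, rep_w]
  have e : rep ι A B hAB (a 0) = aPerm ι A 0 := lift_a _ _ _ _
  rw [e, aPerm_zpow_tr]
  congr 1
  ring

lemma rep_tau (hAB : (A : K) * (1 - B) = 1 - 2 * B) (τ : (ℤ →₀ tor X) → PiDelta X)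
    (h0 : τ 0 = 1) (hadd : ∀ f g, τ (f + g) = τ f * τ g)
    (hs : ∀ k u, τ (Finsupp.single k u) = cc k (u : X)) (f : ℤ →₀ tor X) :
    rep ι A B hAB (τ f) =
      trn ((1 - (B : K)) * f.sum (fun k u => ((A ^ k : Kˣ) : K) * ι (u : X))) := by
  induction f using Finsupp.induction_linear with
  | zero => rw [h0, map_one, Finsupp.sum_zero_index, mul_zero, trn_zero]
  | add f g hf hg =>
    rw [hadd, map_mul, hf, hg, Finsupp.sum_add_index', mul_add, trn_add]
    · intro k
      rw [AddSubgroup.coe_zero, map_zero, mul_zero]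
    · intro k u v
      rw [AddSubgroup.coe_add, map_add, mul_add]
  | single k u =>
    rw [hs, rep_cc, Finsupp.sum_single_index]
    rw [AddSubgroup.coe_zero, map_zero, mul_zero]

end rep

section ring

open Polynomial in
lemma root_sub_unit {R : Type*} [CommRing R] (P : Polynomial R) (c : R) (h : IsUnit (P.eval c)) :
    IsUnit (AdjoinRoot.root P - AdjoinRoot.of P c) := by
  obtain ⟨q, hq⟩ := Polynomial.X_sub_C_dvd_sub_C_eval (a := c) (p := P)
  have h2 := congrArg (AdjoinRoot.mk P) hq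
  rw [map_sub, map_mul, map_sub, AdjoinRoot.mk_self, AdjoinRoot.mk_X, AdjoinRoot.mk_C,
    AdjoinRoot.mk_C] at h2
  have h3 : IsUnit ((AdjoinRoot.root P - AdjoinRoot.of P c) * AdjoinRoot.mk P q) := by
    rw [← h2, zero_sub]
    exact (h.map (AdjoinRoot.of P)).neg
  exact isUnit_of_mul_isUnit_left h3

/-- the polynomial `x ^ m + x + 1` -/
noncomputable def PP (R : Type*) [CommRing R] (m : ℕ) : Polynomial R :=
  Polynomial.X ^ m + (Polynomial.X + 1)

lemma PP_deg {R : Type*} [CommRing R] [Nontrivial R] (m : ℕ) (hm : 2 ≤ m) :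
    (PP R m).natDegree = m ∧ (PP R m).Monic := by
  have h1 : (Polynomial.X + 1 : Polynomial R).natDegree < m := by
    have : (Polynomial.X + 1 : Polynomial R) = Polynomial.X + Polynomial.C 1 := by simp
    rw [this, Polynomial.natDegree_X_add_C]
    omega
  constructor
  · unfold PP
    rw [Polynomial.natDegree_add_eq_left_of_natDegree_lt]
    · exact Polynomial.natDegree_X_pow m
    · rw [Polynomial.natDegree_X_pow]; exact h1
  · unfold PP
    apply Polynomial.monic_X_pow_add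
    rw [Polynomial.degree_lt_iff_coeff_zero]
    intro k hk
    exact Polynomial.coeff_eq_zero_of_natDegree_lt (lt_of_lt_of_le h1 hk)

lemma PP_eval {R : Type*} [CommRing R] (m : ℕ) (c : R) : (PP R m).eval c = c ^ m + (c + 1) := by
  unfold PP
  simp

lemma odd_unit (e : ℕ) (n : ℕ) (hn : n % 2 = 1) : IsUnit ((n : ℕ) : ZMod (2 ^ e)) := by
  rw [ZMod.isUnit_iff_coprime]
  apply Nat.Coprime.pow_right
  rw [Nat.coprime_comm, Nat.coprime_two_left]
  exact Nat.odd_iff.2 hn

end ring

end Pool.Agent.R645.SQ
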