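import Pool.Agent.R645.SQ.Defs

/-! If `X` is killed by a power of two, then the elements `w_u = b_u b_0⁻¹` (`2u = 0`) of
`π₁(Δ_X)` generate an abelian normal subgroup. -/

set_option autoImplicit false

namespace Pool.Agent.R645.SQ

universe u

variable {X : Type u} [AddCommGroup X]

/-- the element `w_u = b_u b_0⁻¹` -/
def w (u : X) : PiDelta X := b u * (b 0)⁻¹

theorem ab_shift (u : X) (hu : u + u = 0) (i j : X) : a (i + u) * b (j + u) = a i * b j := by
  rw [rel, rel]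
  have e1 : i + u + (j + u) = i + j := by
    calc i + u + (j + u) = i + j + (u + u) := by abel
      _ = i + j := by rw [hu, add_zero]
  have e2 : i + u - (j + u) = i - j := by abel
  rw [e1, e2]

theorem w_eq (u : X) (hu : u + u = 0) (i j : X) : (a (i + u))⁻¹ * a i = b (j + u) * (b j)⁻¹ := by
  have h := ab_shift u hu i j
  rw [inv_mul_eq_iff_eq_mul, ← mul_assoc, h]
  group

theorem w_b (u : X) (hu : u + u = 0) (j : X) : w u * b j = b (j + u) := by
  have h1 := w_eq u hu 0 0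
  have h2 := w_eq u hu 0 j
  rw [h1] at h2
  rw [zero_add] at h2
  unfold w
  rw [h2]
  group

theorem a_w (u : X) (hu : u + u = 0) (i : X) : a (i + u) * w u = a i := by
  have h1 := w_eq u hu i 0
  rw [zero_add] at h1
  unfold w
  rw [← h1]
  group

theorem w_add (u v : X) (hu : u + u = 0) (_hv : v + v = 0) : w (u + v) = w u * w v := by
  unfold w
  rw [← mul_assoc]
  have h := w_b u hu v
  unfold w at h
  rw [h, add_comm v u]

theorem w_zero : w (0 : X) = 1 := by unfold w; group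

theorem w_sq (u : X) (hu : u + u = 0) : w u * w u = 1 := by
  rw [← w_add u u hu hu, hu, w_zero]

/-- the key property -/
def Q (z : PiDelta X) : Prop :=
  ∃ z1, (∀ i, (a i)⁻¹ * z * a i = z1) ∧ (∀ j, b j * z * (b j)⁻¹ = z1 * z)

theorem w_key (u : X) (hu : u + u = 0) (i j : X) :
    b j * w u * (b j)⁻¹ = ((a i)⁻¹ * w u * a i) * w u := by
  have h1 : a i * (w u * b j) = w u * (a i * b j) * w u := by
    rw [w_b u hu, rel, rel]
    have e1 : i + (j + u) = (i + j) + u := by abel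
    rw [e1, ← w_b u hu (i + j)]
    have e2 : i - j = (i - (j + u)) + u := by abel
    rw [e2, mul_assoc, mul_assoc, mul_assoc, a_w u hu]
  have h2 := w_sq u hu
  have h3 : (w u)⁻¹ = w u := inv_eq_of_mul_eq_one_right h2
  -- from h1 : w = (a_i⁻¹ w a_i) (b_j w b_j⁻¹)
  have h4 : w u = ((a i)⁻¹ * w u * a i) * (b j * w u * (b j)⁻¹) := by
    calc w u = (a i)⁻¹ * (a i * (w u * b j)) * (b j)⁻¹ := by group
      _ = _ := by rw [h1]; group
  have h5 : b j * w u * (b j)⁻¹ = ((a i)⁻¹ * w u * a i)⁻¹ * w u := by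
    rw [eq_inv_mul_iff_mul_eq]
    exact h4.symm
  rw [h5]
  congr 1
  calc ((a i)⁻¹ * w u * a i)⁻¹ = (a i)⁻¹ * (w u)⁻¹ * a i := by group
    _ = _ := by rw [h3]

theorem Q_w (u : X) (hu : u + u = 0) : Q (w u) := by
  refine ⟨(a 0)⁻¹ * w u * a 0, fun i => ?_, fun j => w_key u hu 0 j⟩
  have h1 := w_key u hu i 0
  have h2 := w_key u hu 0 0
  rw [h1] at h2
  exact mul_right_cancel h2

theorem inv_a_b (k j : X) : (a k)⁻¹ * b j = b (j - k) * (a (k - (j - k)))⁻¹ := by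
  have h := rel k (j - k)
  have e : k + (j - k) = j := by abel
  rw [e] at h
  rw [inv_mul_eq_iff_eq_mul, ← mul_assoc, h]
  group

theorem Q_adown_key (z z1 : PiDelta X) (h1 : ∀ i, (a i)⁻¹ * z * a i = z1)
    (h2 : ∀ j, b j * z * (b j)⁻¹ = z1 * z) (k m : X) :
    (a k)⁻¹ * z1 * a k = b m * z1 * (b m)⁻¹ * z1⁻¹ := by
  have e0 : z1 = b (m + k) * z * (b (m + k))⁻¹ * z⁻¹ := by rw [h2]; group
  have e1 : (a k)⁻¹ * b (m + k) = b m * (a (k - m))⁻¹ := by
    rw [inv_a_b]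
    have : m + k - k = m := by abel
    rw [this]
  calc (a k)⁻¹ * z1 * a k = (a k)⁻¹ * (b (m + k) * z * (b (m + k))⁻¹ * z⁻¹) * a k := by rw [← e0]
    _ = ((a k)⁻¹ * b (m + k)) * z * ((a k)⁻¹ * b (m + k))⁻¹ * ((a k)⁻¹ * z * a k)⁻¹ := by group
    _ = b m * ((a (k - m))⁻¹ * z * a (k - m)) * (b m)⁻¹ * z1⁻¹ := by rw [e1, h1 k]; group
    _ = _ := by rw [h1]

theorem Q_adown (z z1 : PiDelta X) (h1 : ∀ i, (a i)⁻¹ * z * a i = z1)
    (h2 : ∀ j, b j * z * (b j)⁻¹ = z1 * z) : Q z1 := by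
  refine ⟨(a 0)⁻¹ * z1 * a 0, fun k => ?_, fun m => ?_⟩
  · rw [Q_adown_key z z1 h1 h2 k 0, Q_adown_key z z1 h1 h2 0 0]
  · rw [Q_adown_key z z1 h1 h2 0 m]
    group

theorem Q_a_inv (z : PiDelta X) (h : Q z) (i : X) :
    (a i)⁻¹ * z * a i = (a 0)⁻¹ * z * a 0 ∧ Q ((a i)⁻¹ * z * a i) := by
  obtain ⟨z1, h1, h2⟩ := h
  rw [h1, h1]
  exact ⟨rfl, Q_adown z z1 h1 h2⟩

theorem Q_b (z : PiDelta X) (h : Q z) (j : X) :
    b j * z * (b j)⁻¹ = b 0 * z * (b 0)⁻¹ ∧ Q (b j * z * (b j)⁻¹) := by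
  obtain ⟨z1, h1, h2⟩ := h
  rw [h2, h2]
  refine ⟨rfl, ?_⟩
  obtain ⟨z11, h3, h4⟩ := Q_adown z z1 h1 h2
  refine ⟨z11 * z1, fun i => ?_, fun m => ?_⟩
  · calc (a i)⁻¹ * (z1 * z) * a i = ((a i)⁻¹ * z1 * a i) * ((a i)⁻¹ * z * a i) := by group
      _ = _ := by rw [h3, h1]
  · calc b m * (z1 * z) * (b m)⁻¹ = (b m * z1 * (b m)⁻¹) * (b m * z * (b m)⁻¹) := by group
      _ = _ := by rw [h4, h2]

theorem v_key (z z1 : PiDelta X) (h1 : ∀ i, (a i)⁻¹ * z * a i = z1)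
    (h2 : ∀ j, b j * z * (b j)⁻¹ = z1 * z) (i k : X) :
    b (i + (i - k)) * (a k * z * (a k)⁻¹) * (b (i + (i - k)))⁻¹ = z * (a i * z * (a i)⁻¹) := by
  have h := rel i (i - k)
  have e : i - (i - k) = k := by abel
  rw [e] at h
  have h3 : a i * z1 * (a i)⁻¹ = z := by rw [← h1 i]; group
  calc b (i + (i - k)) * (a k * z * (a k)⁻¹) * (b (i + (i - k)))⁻¹
      = (b (i + (i - k)) * a k) * z * (b (i + (i - k)) * a k)⁻¹ := by group
    _ = (a i * b (i - k)) * z * (a i * b (i - k))⁻¹ := by rw [h]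
    _ = a i * (b (i - k) * z * (b (i - k))⁻¹) * (a i)⁻¹ := by group
    _ = (a i * z1 * (a i)⁻¹) * (a i * z * (a i)⁻¹) := by rw [h2]; group
    _ = _ := by rw [h3]

theorem v_const (z z1 : PiDelta X) (h1 : ∀ i, (a i)⁻¹ * z * a i = z1)
    (h2 : ∀ j, b j * z * (b j)⁻¹ = z1 * z) (n : ℕ) :
    ∀ s : X, 2 ^ n • s = 0 → ∀ i, a (i + s) * z * (a (i + s))⁻¹ = a i * z * (a i)⁻¹ := by
  induction n with
  | zero =>
    intro s hs i
    rw [pow_zero, one_nsmul] at hs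
    rw [hs, add_zero]
  | succ n ih =>
    intro s hs i
    have hs' : 2 ^ n • (-(s + s)) = 0 := by
      rw [smul_neg, ← two_nsmul, smul_smul, ← pow_succ, hs, neg_zero]
    have k1 := v_key z z1 h1 h2 (i + s) 0
    have k2 := v_key z z1 h1 h2 i (0 + -(s + s))
    rw [ih _ hs' 0] at k2
    have e : i + (i - (0 + -(s + s))) = i + s + (i + s - 0) := by abel
    rw [e, k1] at k2
    exact mul_left_cancel k2

/-- the group is killed by a power of two -/
def TwoPrim (X : Type u) [AddCommGroup X] : Prop := ∃ n : ℕ, ∀ x : X, 2 ^ n • x = 0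

theorem Q_a (hX : TwoPrim X) (z : PiDelta X) (h : Q z) (i : X) :
    a i * z * (a i)⁻¹ = a 0 * z * (a 0)⁻¹ ∧ Q (a i * z * (a i)⁻¹) := by
  obtain ⟨n, hn⟩ := hX
  obtain ⟨z1, h1, h2⟩ := h
  have hc : ∀ i, a i * z * (a i)⁻¹ = a 0 * z * (a 0)⁻¹ := by
    intro i
    have := v_const z z1 h1 h2 n i (hn i) 0
    rwa [zero_add] at this
  refine ⟨hc i, z, fun j => ?_, fun m => ?_⟩
  · rw [hc i, ← hc j]; group
  · have h3 := v_key z z1 h1 h2 m m
    have e : m + (m - m) = m := by abel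
    rw [e] at h3
    rw [hc i, ← hc m]
    exact h3

theorem Q_b_inv (hX : TwoPrim X) (z : PiDelta X) (h : Q z) (j : X) :
    (b j)⁻¹ * z * b j = (b 0)⁻¹ * z * b 0 ∧ Q ((b j)⁻¹ * z * b j) := by
  have hX' := hX
  obtain ⟨n, hn⟩ := hX'
  -- z⁺
  have hza := Q_a hX z h
  set zp : PiDelta X := a 0 * z * (a 0)⁻¹ with hzp
  have hzp2 : ∀ m, b m * zp * (b m)⁻¹ = z * zp := by
    intro m
    obtain ⟨z1, h1, h2⟩ := h
    have h3 := v_key z z1 h1 h2 m m
    have e : m + (m - m) = m := by abel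
    rw [e, (hza m).1] at h3
    exact h3
  have hm : ∀ m, (b m)⁻¹ * zp * b m = ((b m)⁻¹ * z * b m)⁻¹ * zp := by
    intro m
    have h3 := hzp2 m
    rw [mul_inv_eq_iff_eq_mul] at h3
    rw [eq_inv_mul_iff_mul_eq]
    calc (b m)⁻¹ * z * b m * ((b m)⁻¹ * zp * b m) = (b m)⁻¹ * (z * zp * b m) := by group
      _ = zp := by rw [← h3]; group
  have key : ∀ k j, a k * ((b j)⁻¹ * z * b j) * (a k)⁻¹ =
      ((b (k + j + j))⁻¹ * z * b (k + j + j))⁻¹ * zp := by
    intro k j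
    have h3 := rel (k + j) j
    have e : k + j - j = k := by abel
    rw [e] at h3
    have h4 : a k * (b j)⁻¹ = (b (k + j + j))⁻¹ * a (k + j) := by
      rw [mul_inv_eq_iff_eq_mul, mul_assoc, h3]; group
    calc a k * ((b j)⁻¹ * z * b j) * (a k)⁻¹ = (a k * (b j)⁻¹) * z * (a k * (b j)⁻¹)⁻¹ := by group
      _ = (b (k + j + j))⁻¹ * (a (k + j) * z * (a (k + j))⁻¹) * b (k + j + j) := by rw [h4]; group
      _ = _ := by rw [(hza (k + j)).1, hm]
  have hconst : ∀ n : ℕ, ∀ s : X, 2 ^ n • s = 0 → ∀ j,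
      (b (j + s))⁻¹ * z * b (j + s) = (b j)⁻¹ * z * b j := by
    intro n
    induction n with
    | zero =>
      intro s hs i
      rw [pow_zero, one_nsmul] at hs
      rw [hs, add_zero]
    | succ n ih =>
      intro s hs j
      have hs' : 2 ^ n • (s + s) = 0 := by
        rw [← two_nsmul, smul_smul, ← pow_succ, hs]
      have k1 := key 0 (j + s)
      have k2 := key 0 j
      have e : 0 + (j + s) + (j + s) = (0 + j + j) + (s + s) := by abel
      rw [e, ih _ hs', ← k2] at k1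
      have := mul_left_cancel (mul_right_cancel k1)
      exact this
  have hc : ∀ j, (b j)⁻¹ * z * b j = (b 0)⁻¹ * z * b 0 := by
    intro j
    have := hconst n j (hn j) 0
    rwa [zero_add] at this
  refine ⟨hc j, ?_⟩
  rw [hc j]
  set ζ : PiDelta X := (b 0)⁻¹ * z * b 0 with hζ
  refine ⟨z * ζ⁻¹, fun k => ?_, fun m => ?_⟩
  · have k1 := key k 0
    rw [hc 0, hc (k + 0 + 0)] at k1
    -- a_k ζ a_k⁻¹ = ζ⁻¹ zp
    have k2 : zp = ζ * (a k * ζ * (a k)⁻¹) := by rw [k1]; group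
    have k3 : (a k)⁻¹ * zp * a k = z := by rw [← (hza k).1]; group
    rw [eq_mul_inv_iff_mul_eq, ← k3]
    conv_rhs => rw [k2]
    group
  · rw [← hc m]; group

/-- the collapse of all indices to zero -/
def col (X : Type u) [AddCommGroup X] : PiDelta X →* PiDelta X := mapX (0 : X →+ X)

theorem col_a (i : X) : col X (a i) = a 0 := mapX_a _ _
theorem col_b (i : X) : col X (b i) = b 0 := mapX_b _ _

theorem conj_col (hX : TwoPrim X) (g : PiDelta X) :
    ∀ z : PiDelta X, Q z → g * z * g⁻¹ = col X g * z * (col X g)⁻¹ ∧ Q (g * z * g⁻¹) := by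
  have hg : g ∈ Subgroup.closure (Set.range (a (X := X)) ∪ Set.range (b (X := X))) := by
    rw [closure_gens]; trivial
  induction hg using Subgroup.closure_induction_left with
  | one => intro z hz; simpa using hz
  | mul_left x hx y hy ih =>
    intro z hz
    obtain ⟨h1, h2⟩ := ih z hz
    have e1 : x * y * z * (x * y)⁻¹ = x * (y * z * y⁻¹) * x⁻¹ := by group
    rw [e1]
    rcases hx with ⟨i, rfl⟩ | ⟨j, rfl⟩
    · obtain ⟨h3, h4⟩ := Q_a hX _ h2 i
      refine ⟨?_, h4⟩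
      rw [h3, h1, map_mul, col_a]; group
    · obtain ⟨h3, h4⟩ := Q_b _ h2 j
      refine ⟨?_, h4⟩
      rw [h3, h1, map_mul, col_b]; group
  | inv_mul_cancel x hx y hy ih =>
    intro z hz
    obtain ⟨h1, h2⟩ := ih z hz
    have e1 : x⁻¹ * y * z * (x⁻¹ * y)⁻¹ = x⁻¹ * (y * z * y⁻¹) * x := by group
    rw [e1]
    rcases hx with ⟨i, rfl⟩ | ⟨j, rfl⟩
    · obtain ⟨h3, h4⟩ := Q_a_inv _ h2 i
      refine ⟨?_, h4⟩
      rw [h3, h1, map_mul, map_inv, col_a]; group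
    · obtain ⟨h3, h4⟩ := Q_b_inv hX _ h2 j
      refine ⟨?_, h4⟩
      rw [h3, h1, map_mul, map_inv, col_b]; group

theorem commute_of_col (hX : TwoPrim X) (g z : PiDelta X) (hg : col X g = 1) (hz : Q z) :
    g * z = z * g := by
  have h := (conj_col hX g z hz).1
  rw [hg] at h
  have h' : g * z * g⁻¹ = z := by rw [h]; group
  exact mul_inv_eq_iff_eq_mul.1 h'

theorem a0_b0 : a (0 : X) * b 0 = b 0 * a 0 := by
  have h := rel (0 : X) 0
  rwa [add_zero, sub_zero] at h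

theorem col_form (g : PiDelta X) : ∃ p q : ℤ, col X g = a 0 ^ p * b 0 ^ q := by
  have hg : g ∈ Subgroup.closure (Set.range (a (X := X)) ∪ Set.range (b (X := X))) := by
    rw [closure_gens]; trivial
  have hc : Commute (a (0 : X)) (b 0) := a0_b0
  induction hg using Subgroup.closure_induction_left with
  | one => exact ⟨0, 0, by simp⟩
  | mul_left x hx y hy ih =>
    obtain ⟨p, q, h⟩ := ih
    rcases hx with ⟨i, rfl⟩ | ⟨j, rfl⟩
    · exact ⟨1 + p, q, by rw [map_mul, h, col_a, zpow_one_add, mul_assoc]⟩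
    · refine ⟨p, 1 + q, ?_⟩
      rw [map_mul, h, col_b, zpow_one_add, ← mul_assoc, ← mul_assoc, (hc.zpow_left p).eq]
  | inv_mul_cancel x hx y hy ih =>
    obtain ⟨p, q, h⟩ := ih
    rcases hx with ⟨i, rfl⟩ | ⟨j, rfl⟩
    · exact ⟨-1 + p, q, by rw [map_mul, h, map_inv, col_a, zpow_add, zpow_neg_one, mul_assoc]⟩
    · refine ⟨p, -1 + q, ?_⟩
      rw [map_mul, h, map_inv, col_b, zpow_add, zpow_neg_one, ← mul_assoc, ← mul_assoc,
        ((hc.zpow_left p).inv_right).eq]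

end Pool.Agent.R645.SQ
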